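import Pool.Agent.Q83.NP.J

/-!
# Digit noise under curved functions: decay on one cylinder, square root cancellation
-/

set_option autoImplicit false
set_option linter.unusedSectionVars false

open MeasureTheory Filter Topology Finset
open scoped ENNReal
open Pool.Agent.H493R3 (ee ee_norm ee_add ee_neg ee_int ee_lip)
open Q83.NP

namespace Q83.NQ

variable {b : ℕ} [NeZero b]

/-- **Decay of the Fourier transform on one cylinder.** -/
theorem dec (hb : 2 ≤ b) (d : ℕ → Fin b) (T : Set ℕ) (c : ℝ) (hc0 : 0 ≤ c) (hc : c < 1 / 2)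
    (hT : Recurs b c T) :
    ∃ k0 : ℕ, ∀ (k : ℕ) (w : ℕ → Fin b) (F F' F'' : ℝ → ℝ) (A K : ℝ), k0 ≤ k → Measurable F →
      Measurable F' →
      (∀ u, |u - Real.ofDigits w| ≤ ((b : ℝ) ^ k)⁻¹ → HasDerivAt F (F' u) u) →
      (∀ u, |u - Real.ofDigits w| ≤ ((b : ℝ) ^ k)⁻¹ → HasDerivAt F' (F'' u) u) →
      0 < A → 1 ≤ K →
      (∀ u, |u - Real.ofDigits w| ≤ ((b : ℝ) ^ k)⁻¹ → A ≤ F'' u) →
      (∀ u, |u - Real.ofDigits w| ≤ ((b : ℝ) ^ k)⁻¹ → F'' u ≤ K * A) →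
      ∃ C : ℝ, 0 ≤ C ∧ ∀ Y : ℝ, 1 < Y →
        ‖∫ ω in cyl k w, ee (Y * F (Real.ofDigits ω)) ∂(noise d T)‖ ≤ C / Real.log Y ^ 4 := by
  have hn' := noise_prob hb d T
  have hb0 : (0 : ℝ) < b := by exact_mod_cast (by omega : 0 < b)
  have hb1 : (1 : ℝ) < b := by exact_mod_cast (by omega : 1 < b)
  have hlb : 0 < Real.log b := Real.log_pos hb1
  obtain ⟨x0, hx0⟩ := hT.gap hb hc0
  refine ⟨x0, fun k w F F' F'' A K hk hF hF' hd hd' hA hK lo hi => ?_⟩
  obtain ⟨s0, hs0⟩ : ∃ s0 : ℕ, 4 * K * b ≤ (b : ℝ) ^ s0 := by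
    obtain ⟨s0, hs0⟩ := pow_unbounded_of_one_lt (4 * K * b) hb1
    exact ⟨s0, hs0.le⟩
  obtain ⟨Z0, hZ0⟩ := eventually_atTop.1 (asym b hb K hK s0 c hc0 hc)
  obtain ⟨Z1, hZ1⟩ : ∃ Z1, Z1 = max 8 (max Z0 (8 * k)) := ⟨_, rfl⟩
  obtain ⟨g, hg⟩ : ∃ g, g = 4 * K * A := ⟨_, rfl⟩
  have hg0 : 0 < g := by rw [hg]; positivity
  obtain ⟨Y1, hY1⟩ : ∃ Y1 : ℝ, Y1 = max ((b : ℝ) ^ Z1 / g) (1 / g ^ 2) := ⟨_, rfl⟩
  refine ⟨max (Real.log Y1 ^ 4) ((2 * Real.log b) ^ 4), le_max_of_le_left (by positivity), fun Y hY => ?_⟩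
  have hY0 : 0 < Y := by linarith
  have hlY : 0 < Real.log Y := Real.log_pos hY
  rcases lt_or_ge Y Y1 with hlt | hge
  · have h1 : ‖∫ ω in cyl k w, ee (Y * F (Real.ofDigits ω)) ∂(noise d T)‖ ≤ 1 := by
      refine (norm_setIntegral_le_of_norm_le_const (C := 1) (measure_lt_top _ _)
        fun ω _ => (ee_norm _).le).trans ?_
      rw [one_mul]; exact measureReal_le_one
    refine h1.trans ?_
    rw [le_div_iff₀ (by positivity), one_mul]
    refine le_trans ?_ (le_max_left _ _)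
    exact pow_le_pow_left₀ hlY.le (Real.log_le_log hY0 hlt.le) 4
  · have hgY1 : (b : ℝ) ^ Z1 ≤ g * Y := by
      have h1 : (b : ℝ) ^ Z1 / g ≤ Y := by
        refine le_trans ?_ hge
        rw [hY1]; exact le_max_left _ _
      rw [div_le_iff₀ hg0] at h1
      linarith
    have hgY2 : 1 / g ^ 2 ≤ Y := by
      refine le_trans ?_ hge
      rw [hY1]; exact le_max_right _ _
    have hgY : (1 : ℝ) ≤ g * Y := (one_le_pow₀ hb1.le).trans hgY1
    obtain ⟨Z', hZ'1, hZ'2⟩ := exists_nat_pow_near hgY hb1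
    obtain ⟨Z, hZd⟩ : ∃ Z, Z = Z' + 1 := ⟨_, rfl⟩
    rw [← hZd] at hZ'2
    have hZZ : Z1 < Z := (pow_lt_pow_iff_right₀ hb1).1 (hgY1.trans_lt hZ'2)
    have hZ8 : 8 ≤ Z := by
      have : 8 ≤ Z1 := by rw [hZ1]; exact le_max_left _ _
      omega
    have hZZ0 : Z0 ≤ Z := by
      have : Z0 ≤ Z1 := by rw [hZ1]; exact (le_max_left _ _).trans (le_max_right _ _)
      omega
    have hkZ : 8 * k ≤ Z := by
      have : 8 * k ≤ Z1 := by rw [hZ1]; exact (le_max_right _ _).trans (le_max_right _ _)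
      omega
    have hbZ : (b : ℝ) ^ Z ≤ 4 * K * (Y * A) * b := by
      have e1 : 4 * K * (Y * A) = g * Y := by rw [hg]; ring
      rw [hZd, pow_succ, e1]; gcongr
    obtain ⟨L, M, hL, hM, hB⟩ := hZ0 Z hZZ0
    have hest := est hb d T k w (fun u => Y * F u) (fun u => Y * F' u) (fun u => Y * F'' u) (Y * A) K
      (hF.const_mul Y) (hF'.const_mul Y)
      (fun u hu => (hd u hu).const_mul Y) (fun u hu => (hd' u hu).const_mul Y)
      (mul_pos hY0 hA) hK
      (fun u hu => mul_le_mul_of_nonneg_left (lo u hu) hY0.le)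
      (fun u hu => by
        have := mul_le_mul_of_nonneg_left (hi u hu) hY0.le
        calc Y * F'' u ≤ Y * (K * A) := this
          _ = K * (Y * A) := by ring)
      s0 hs0 L Z M (fun x' hx1 hx2 => hx0 Z L hL x' (hk.trans hx1) hx2)
      (by
        have e1 : 4 * K * (Y * A) = g * Y := by rw [hg]; ring
        rw [e1]; exact hZ'2.le)
      hbZ hZ8 (hM k hkZ)
    refine hest.trans ?_
    have hZpos : (0 : ℝ) < Z := by exact_mod_cast (by omega : 0 < Z)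
    have h1 : Real.log Y ≤ 2 * Real.log b * Z := by
      have h2 : Real.log (g * Y) ≤ Z * Real.log b := by
        rw [← Real.log_pow]
        exact Real.log_le_log (by positivity) hZ'2.le
      rw [Real.log_mul hg0.ne' hY0.ne'] at h2
      have h3 : Real.log (1 / g ^ 2) ≤ Real.log Y := Real.log_le_log (by positivity) hgY2
      rw [one_div, Real.log_inv, Real.log_pow] at h3
      push_cast at h3
      linarith
    calc ((1 - 1 / (64 * K ^ 2 * (b : ℝ) ^ (2 * L + 4))) ^ M + 2 * (b : ℝ) ^ 4 * ((b : ℝ) ^ (Z / 2))⁻¹) *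
        (noise d T).real (cyl k w) ≤ ((Z : ℝ) ^ 4)⁻¹ * 1 :=
          mul_le_mul hB measureReal_le_one measureReal_nonneg (by positivity)
      _ = ((Z : ℝ) ^ 4)⁻¹ := mul_one _
      _ ≤ (2 * Real.log b) ^ 4 / Real.log Y ^ 4 := by
          rw [inv_eq_one_div, div_le_div_iff₀ (by positivity) (by positivity), one_mul, ← mul_pow]
          exact pow_le_pow_left₀ hlY.le h1 4
      _ ≤ _ := by
          gcongr
          exact le_max_right _ _

/-! ### From pair correlations to square root cancellation -/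

section Abstract

variable {Ω : Type*} [MeasurableSpace Ω]

theorem moment_gen (μ : Measure Ω) [IsFiniteMeasure μ] (hμ : μ.real Set.univ ≤ 1)
    (φ : ℕ → Ω → ℝ) (hφ : ∀ j, Measurable (φ j)) (C : ℝ) (hC0 : 0 ≤ C)
    (hC : ∀ i j : ℕ, j < i → ‖∫ ω, ee (φ i ω - φ j ω) ∂μ‖ ≤ C / (i : ℝ) ^ 4) :
    ∀ a a' : ℕ, a ≤ a' →
      ∫ ω, ‖∑ j ∈ Ico a a', ee (φ j ω)‖ ^ 2 ∂μ ≤ (1 + 2 * C) * (a' - a : ℕ) := by
  intro a a' haa
  obtain ⟨z, hz⟩ : ∃ z : ℕ → Ω → ℂ, z = fun j ω => ee (φ j ω) := ⟨_, rfl⟩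
  have hzm : ∀ j, Measurable (z j) := by
    intro j
    rw [hz]
    exact ee_cont.measurable.comp (hφ j)
  have hzn : ∀ j ω, ‖z j ω‖ = 1 := fun j ω => by rw [hz]; exact ee_norm _
  have hpair : ∀ i j, Integrable (fun ω => z i ω * (starRingEnd ℂ) (z j ω)) μ := by
    intro i j
    have hm : Measurable fun ω => z i ω * (starRingEnd ℂ) (z j ω) :=
      (hzm i).mul (Complex.continuous_conj.measurable.comp (hzm j))
    refine Integrable.of_bound hm.aestronglyMeasurable 1 (Eventually.of_forall fun ω => ?_)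
    rw [norm_mul, RCLike.norm_conj, hzn, hzn, one_mul]
  have hsq : ∀ ω, ((‖∑ j ∈ Ico a a', z j ω‖ ^ 2 : ℝ) : ℂ) =
      ∑ i ∈ Ico a a', ∑ j ∈ Ico a a', z i ω * (starRingEnd ℂ) (z j ω) := by
    intro ω
    rw [Complex.ofReal_pow, ← Complex.mul_conj', map_sum, Finset.sum_mul_sum]
  have hI : ((∫ ω, ‖∑ j ∈ Ico a a', z j ω‖ ^ 2 ∂μ : ℝ) : ℂ) =
      ∑ i ∈ Ico a a', ∑ j ∈ Ico a a', ∫ ω, z i ω * (starRingEnd ℂ) (z j ω) ∂μ := by
    have h1 := integral_ofReal (𝕜 := ℂ) (f := fun ω => ‖∑ j ∈ Ico a a', z j ω‖ ^ 2) (μ := μ)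
    refine h1.symm.trans ?_
    have h2 : (fun ω => (((‖∑ j ∈ Ico a a', z j ω‖ ^ 2 : ℝ)) : ℂ)) = fun ω =>
      ∑ i ∈ Ico a a', ∑ j ∈ Ico a a', z i ω * (starRingEnd ℂ) (z j ω) := funext hsq
    refine (congrArg (fun f : Ω → ℂ => ∫ ω, f ω ∂μ) h2).trans ?_
    rw [integral_finsetSum _ fun i _ => integrable_finsetSum _ fun j _ => hpair i j]
    refine Finset.sum_congr rfl fun i _ => ?_
    rw [integral_finsetSum _ fun j _ => hpair i j]
  have hb1 : ∀ i j, j < i → ‖∫ ω, z i ω * (starRingEnd ℂ) (z j ω) ∂μ‖ ≤ C / (i : ℝ) ^ 4 := by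
    intro i j hji
    have e1 : ∀ ω, z i ω * (starRingEnd ℂ) (z j ω) = ee (φ i ω - φ j ω) := by
      intro ω
      rw [hz]
      simp only
      rw [← ee_neg, ← ee_add, sub_eq_add_neg]
    simp_rw [e1]
    exact hC i j hji
  have hb2 : ∀ i j, i < j → ‖∫ ω, z i ω * (starRingEnd ℂ) (z j ω) ∂μ‖ ≤ C / (j : ℝ) ^ 4 := by
    intro i j hij
    have e1 : ∫ ω, z i ω * (starRingEnd ℂ) (z j ω) ∂μ =
        (starRingEnd ℂ) (∫ ω, z j ω * (starRingEnd ℂ) (z i ω) ∂μ) := by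
      rw [← integral_conj]
      refine integral_congr_ae (Eventually.of_forall fun ω => ?_)
      simp only [map_mul, Complex.conj_conj]
      ring
    rw [e1, RCLike.norm_conj]
    exact hb1 j i hij
  have hb3 : ∀ i, ‖∫ ω, z i ω * (starRingEnd ℂ) (z i ω) ∂μ‖ ≤ 1 := by
    intro i
    refine (norm_integral_le_of_norm_le_const (C := 1) (Eventually.of_forall fun ω => ?_)).trans ?_
    · rw [norm_mul, RCLike.norm_conj, hzn, one_mul]
    · rw [one_mul]; exact hμ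
  have hnorm : ∫ ω, ‖∑ j ∈ Ico a a', z j ω‖ ^ 2 ∂μ ≤
      ∑ i ∈ Ico a a', ∑ j ∈ Ico a a', ‖∫ ω, z i ω * (starRingEnd ℂ) (z j ω) ∂μ‖ := by
    have h1 : 0 ≤ ∫ ω, ‖∑ j ∈ Ico a a', z j ω‖ ^ 2 ∂μ := integral_nonneg fun ω => sq_nonneg _
    have h2 : ‖((∫ ω, ‖∑ j ∈ Ico a a', z j ω‖ ^ 2 ∂μ : ℝ) : ℂ)‖ =
        ∫ ω, ‖∑ j ∈ Ico a a', z j ω‖ ^ 2 ∂μ := by
      rw [Complex.norm_real, Real.norm_of_nonneg h1]
    rw [← h2, hI]
    exact (norm_sum_le _ _).trans (Finset.sum_le_sum fun i _ => norm_sum_le _ _)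
  have hbound : ∀ i j, ‖∫ ω, z i ω * (starRingEnd ℂ) (z j ω) ∂μ‖ ≤
      (if i = j then 1 else 0) + ((if j < i then C / (i : ℝ) ^ 4 else 0) + (if i < j then C / (j : ℝ) ^ 4 else 0)) := by
    intro i j
    rcases lt_trichotomy i j with h | h | h
    · rw [if_neg (by omega), if_neg (by omega), if_pos h]
      have := hb2 i j h
      linarith
    · subst h
      rw [if_pos rfl, if_neg (lt_irrefl _)]
      have := hb3 i
      linarith
    · rw [if_neg (by omega), if_pos h, if_neg (by omega)]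
      have := hb1 i j h
      linarith
  have hone : ∀ i, ∑ j ∈ Ico a a', (if j < i then C / (i : ℝ) ^ 4 else 0) ≤ C := by
    intro i
    rw [← Finset.sum_filter, Finset.sum_const, nsmul_eq_mul]
    rcases Nat.eq_zero_or_pos i with hi | hi
    · subst hi; simp [hC0]
    · have hiR : (1 : ℝ) ≤ i := by exact_mod_cast hi
      have h1 : ((Ico a a').filter fun j => j < i).card ≤ i := by
        calc ((Ico a a').filter fun j => j < i).card ≤ (range i).card :=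
              Finset.card_le_card fun j hj => Finset.mem_range.2 (Finset.mem_filter.1 hj).2
          _ = i := card_range i
      have h2 : (((Ico a a').filter fun j => j < i).card : ℝ) ≤ i := by exact_mod_cast h1
      rw [← mul_div_assoc, div_le_iff₀ (by positivity)]
      have h3 : (i : ℝ) ≤ (i : ℝ) ^ 4 := le_self_pow₀ hiR (by norm_num)
      calc (((Ico a a').filter fun j => j < i).card : ℝ) * C ≤ (i : ℝ) ^ 4 * C := by
            gcongr; exact h2.trans h3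
        _ = _ := mul_comm _ _
  have e2 : ∫ ω, ‖∑ j ∈ Ico a a', ee (φ j ω)‖ ^ 2 ∂μ = ∫ ω, ‖∑ j ∈ Ico a a', z j ω‖ ^ 2 ∂μ := by rw [hz]
  rw [e2]
  refine hnorm.trans ((Finset.sum_le_sum fun i _ => Finset.sum_le_sum fun j _ => hbound i j).trans ?_)
  simp only [Finset.sum_add_distrib]
  have h1 : ∑ i ∈ Ico a a', ∑ j ∈ Ico a a', (if i = j then (1 : ℝ) else 0) ≤ (a' - a : ℕ) := by
    calc ∑ i ∈ Ico a a', ∑ j ∈ Ico a a', (if i = j then (1 : ℝ) else 0)
        ≤ ∑ _i ∈ Ico a a', (1 : ℝ) := by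
          refine Finset.sum_le_sum fun i hi => ?_
          rw [Finset.sum_ite_eq]
          split_ifs <;> norm_num
      _ = (a' - a : ℕ) := by simp
  have h2 : ∑ i ∈ Ico a a', ∑ j ∈ Ico a a', (if j < i then C / (i : ℝ) ^ 4 else 0) ≤ C * (a' - a : ℕ) := by
    calc _ ≤ ∑ _i ∈ Ico a a', C := Finset.sum_le_sum fun i _ => hone i
      _ = _ := by rw [Finset.sum_const, Nat.card_Ico, nsmul_eq_mul, mul_comm]
  have h3 : ∑ i ∈ Ico a a', ∑ j ∈ Ico a a', (if i < j then C / (j : ℝ) ^ 4 else 0) ≤ C * (a' - a : ℕ) := by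
    rw [Finset.sum_comm]
    exact h2
  linarith

/-- square root cancellation from decaying pair correlations -/
theorem cancel_gen (μ : Measure Ω) [IsFiniteMeasure μ] (hμ : μ.real Set.univ ≤ 1)
    (φ : ℕ → Ω → ℝ) (hφ : ∀ j, Measurable (φ j)) (C : ℝ) (hC0 : 0 ≤ C)
    (hC : ∀ i j : ℕ, j < i → ‖∫ ω, ee (φ i ω - φ j ω) ∂μ‖ ≤ C / (i : ℝ) ^ 4) :
    ∀ᵐ ω ∂μ, ∃ C : ℝ, ∀ N : ℕ,
      ‖∑ j ∈ range N, ee (φ j ω)‖ ≤ C * (Real.sqrt N * Real.log (N + 1) ^ 2) := by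
  obtain ⟨K, hK⟩ : ∃ K, K = 1 + 2 * C := ⟨_, rfl⟩
  have hKm := moment_gen μ hμ φ hφ C hC0 hC
  rw [← hK] at hKm
  obtain ⟨z, hz⟩ : ∃ z : ℕ → Ω → ℂ, z = fun j ω => ee (φ j ω) := ⟨_, rfl⟩
  have hzm : ∀ j, Measurable (z j) := by
    intro j
    rw [hz]
    exact ee_cont.measurable.comp (hφ j)
  have hzn : ∀ j ω, ‖z j ω‖ = 1 := fun j ω => by rw [hz]; exact ee_norm _
  have hSm : ∀ a a', Measurable fun ω => ∑ j ∈ Ico a a', z j ω := fun a a' =>
    Finset.measurable_fun_sum _ fun j _ => hzm j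
  have hSn : ∀ a a' ω, ‖∑ j ∈ Ico a a', z j ω‖ ≤ (a' - a : ℕ) := by
    intro a a' ω
    refine (norm_sum_le _ _).trans ?_
    simp [hzn]
  have hK' : ∀ a a' : ℕ, a ≤ a' → ∫ ω, ‖∑ j ∈ Ico a a', z j ω‖ ^ 2 ∂μ ≤ K * (a' - a : ℕ) := by
    intro a a' h
    rw [hz]; exact hKm a a' h
  have hIS : ∀ a a', Integrable (fun ω => ‖∑ j ∈ Ico a a', z j ω‖ ^ 2) μ := by
    intro a a'
    refine (Integrable.of_bound ((hSm a a').norm.pow_const 2).aestronglyMeasurable (((a' - a : ℕ) : ℝ) ^ 2)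
      (Eventually.of_forall fun ω => ?_))
    rw [Real.norm_eq_abs, abs_of_nonneg (sq_nonneg _)]
    exact pow_le_pow_left₀ (norm_nonneg _) (hSn a a' ω) 2
  have hre := rm μ (fun j ω => (z j ω).re)
    (fun j => Complex.measurable_re.comp (hzm j))
    (fun j ω => (Complex.abs_re_le_norm _).trans (hzn j ω).le) K (fun a a' h => by
      refine le_trans (integral_mono_of_nonneg (Eventually.of_forall fun ω => sq_nonneg _) (hIS a a')
        (Eventually.of_forall fun ω => ?_)) (hK' a a' h)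
      simp only
      have e1 : bl (fun j => (z j ω).re) a a' = (∑ j ∈ Ico a a', z j ω).re := by
        unfold bl; rw [Complex.re_sum]
      rw [e1, ← sq_abs]
      exact pow_le_pow_left₀ (abs_nonneg _) (Complex.abs_re_le_norm _) 2)
  have him := rm μ (fun j ω => (z j ω).im)
    (fun j => Complex.measurable_im.comp (hzm j))
    (fun j ω => (Complex.abs_im_le_norm _).trans (hzn j ω).le) K (fun a a' h => by
      refine le_trans (integral_mono_of_nonneg (Eventually.of_forall fun ω => sq_nonneg _) (hIS a a')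
        (Eventually.of_forall fun ω => ?_)) (hK' a a' h)
      simp only
      have e1 : bl (fun j => (z j ω).im) a a' = (∑ j ∈ Ico a a', z j ω).im := by
        unfold bl; rw [Complex.im_sum]
      rw [e1, ← sq_abs]
      exact pow_le_pow_left₀ (abs_nonneg _) (Complex.abs_im_le_norm _) 2)
  filter_upwards [hre, him] with ω h1 h2
  obtain ⟨C1, hC1⟩ := h1
  obtain ⟨C2, hC2⟩ := h2
  refine ⟨C1 + C2, fun N => ?_⟩
  have e1 : ∑ j ∈ range N, ee (φ j ω) = ∑ j ∈ range N, z j ω := by rw [hz]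
  rw [e1, add_mul]
  refine (Complex.norm_le_abs_re_add_abs_im _).trans ?_
  rw [Complex.re_sum, Complex.im_sum]
  exact add_le_add (hC1 N) (hC2 N)

end Abstract

end Q83.NQ
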