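import Pool.Agent.Q83.NQ.A

/-!
# Digit noise under curved functions: almost all digit sequences
-/

set_option autoImplicit false
set_option linter.unusedSectionVars false

open MeasureTheory Filter Topology Finset
open scoped ENNReal
open Pool.Agent.H493R3 (ee ee_norm ee_add ee_neg ee_int ee_lip)
open Q83.NP

namespace Q83.NQ

variable {b : ℕ} [NeZero b]

/-- lacunary sequence with ratio at least `q` -/
structure Lac (q : ℝ) (l : ℕ → ℝ) : Prop where
  one_lt : 1 < q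
  pos : 0 < l 0
  step : ∀ j, q * l j ≤ l (j + 1)

lemma Lac.pos' {q : ℝ} {l : ℕ → ℝ} (h : Lac q l) (j : ℕ) : 0 < l j := by
  induction j with
  | zero => exact h.pos
  | succ j ih => exact lt_of_lt_of_le (mul_pos (by linarith [h.one_lt]) ih) (h.step j)

lemma Lac.growth {q : ℝ} {l : ℕ → ℝ} (h : Lac q l) (j : ℕ) : q ^ j * l 0 ≤ l j := by
  induction j with
  | zero => simp
  | succ j ih =>
    have h1 := h.step j
    have hq : 0 < q := by linarith [h.one_lt]
    calc q ^ (j + 1) * l 0 = q * (q ^ j * l 0) := by ring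
      _ ≤ q * l j := by gcongr
      _ ≤ _ := h1

lemma Lac.mono {q : ℝ} {l : ℕ → ℝ} (h : Lac q l) : Monotone l :=
  monotone_nat_of_le_succ fun j => by
    have h1 := h.step j
    have h2 := h.pos' j
    nlinarith [h.one_lt]

/-- differences are comparable with the larger term -/
lemma Lac.diff {q : ℝ} {l : ℕ → ℝ} (h : Lac q l) {i j : ℕ} (hji : j < i) :
    (1 - 1 / q) * (q ^ i * l 0) ≤ l i - l j := by
  have hq : 0 < q := by linarith [h.one_lt]
  have h1 : l j ≤ l (i - 1) := h.mono (by omega)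
  have h2 := h.step (i - 1)
  rw [Nat.sub_add_cancel (by omega)] at h2
  have h3 : l (i - 1) ≤ l i / q := by rw [le_div_iff₀ hq]; linarith
  have h4 := h.growth i
  have h5 : 0 ≤ 1 - 1 / q := by
    rw [sub_nonneg, div_le_one hq]; exact h.one_lt.le
  calc (1 - 1 / q) * (q ^ i * l 0) ≤ (1 - 1 / q) * l i := by gcongr
    _ = l i - l i / q := by ring
    _ ≤ _ := by linarith

/-- pair correlations of a lacunary sequence on one cylinder -/
theorem lac_cyl (μ : Measure (ℕ → Fin b)) [IsFiniteMeasure μ] (hμ : μ.real Set.univ ≤ 1) (F : ℝ → ℝ)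
    (C0 : ℝ) (hC0 : 0 ≤ C0)
    (hdec : ∀ Y : ℝ, 1 < Y → ‖∫ ω, ee (Y * F (Real.ofDigits ω)) ∂μ‖ ≤ C0 / Real.log Y ^ 4)
    {q : ℝ} {l : ℕ → ℝ} (hl : Lac q l) (y : ℝ) (hy : y ≠ 0) :
    ∃ C : ℝ, 0 ≤ C ∧ ∀ i j : ℕ, j < i →
      ‖∫ ω, ee (y * l i * F (Real.ofDigits ω) - y * l j * F (Real.ofDigits ω)) ∂μ‖ ≤ C / (i : ℝ) ^ 4 := by
  have hq := hl.one_lt
  have hlq : 0 < Real.log q := Real.log_pos hq
  obtain ⟨g, hg⟩ : ∃ g, g = |y| * (1 - 1 / q) * l 0 := ⟨_, rfl⟩
  have hy0 : 0 < |y| := abs_pos.2 hy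
  have hg0 : 0 < g := by
    have h1 : 0 < 1 - 1 / q := by
      rw [sub_pos, div_lt_one (by linarith)]; exact hq
    have := hl.pos
    rw [hg]; positivity
  obtain ⟨i0, hi0⟩ := pow_unbounded_of_one_lt (1 / g ^ 2) hq
  obtain ⟨i1, hi1⟩ : ∃ i1, i1 = max i0 1 := ⟨_, rfl⟩
  refine ⟨max ((i1 : ℝ) ^ 4) (C0 * (2 / Real.log q) ^ 4), le_max_of_le_left (by positivity),
    fun i j hji => ?_⟩
  have hiR : (0 : ℝ) < i := by exact_mod_cast (by omega : 0 < i)
  have e1 : ∀ ω : ℕ → Fin b, y * l i * F (Real.ofDigits ω) - y * l j * F (Real.ofDigits ω) =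
      (y * (l i - l j)) * F (Real.ofDigits ω) := fun ω => by ring
  simp_rw [e1]
  rcases lt_or_ge i i1 with hlt | hge
  · have h1 : ‖∫ ω, ee (y * (l i - l j) * F (Real.ofDigits ω)) ∂μ‖ ≤ 1 := by
      refine (norm_integral_le_of_norm_le_const (C := 1) (Eventually.of_forall fun ω => (ee_norm _).le)).trans ?_
      rw [one_mul]; exact hμ
    refine h1.trans ?_
    rw [le_div_iff₀ (by positivity), one_mul]
    refine le_trans ?_ (le_max_left _ _)
    exact pow_le_pow_left₀ hiR.le (by exact_mod_cast hlt.le) 4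
  · have hd := hl.diff hji
    have hlij : 0 < l i - l j := by
      have h1 : 0 < 1 - 1 / q := by
        rw [sub_pos, div_lt_one (by linarith)]; exact hq
      have h2 : 0 < q ^ i * l 0 := mul_pos (pow_pos (by linarith) _) hl.pos
      nlinarith
    have hY : g * q ^ i ≤ |y| * (l i - l j) := by
      calc g * q ^ i = |y| * ((1 - 1 / q) * (q ^ i * l 0)) := by rw [hg]; ring
        _ ≤ _ := by gcongr
    have hqi : 1 / g ^ 2 < q ^ i := by
      refine hi0.trans_le (pow_le_pow_right₀ hq.le ?_)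
      have : i0 ≤ i1 := by rw [hi1]; exact le_max_left _ _
      omega
    have hi1' : 1 ≤ i := by omega
    -- `log Y ≥ i log q / 2`
    have hlog : (i : ℝ) * Real.log q / 2 ≤ Real.log (g * q ^ i) := by
      rw [Real.log_mul hg0.ne' (pow_pos (by linarith) _).ne', Real.log_pow]
      have h3 : Real.log (1 / g ^ 2) ≤ Real.log (q ^ i) := Real.log_le_log (by positivity) hqi.le
      rw [one_div, Real.log_inv, Real.log_pow, Real.log_pow] at h3
      push_cast at h3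
      linarith
    have hlogpos : 0 < (i : ℝ) * Real.log q / 2 := by positivity
    have hgq : 0 < g * q ^ i := mul_pos hg0 (pow_pos (by linarith) _)
    have hYpos : 0 < |y| * (l i - l j) := mul_pos hy0 hlij
    have hlogY : (i : ℝ) * Real.log q / 2 ≤ Real.log (|y| * (l i - l j)) :=
      hlog.trans (Real.log_le_log hgq hY)
    have hY1 : 1 < |y| * (l i - l j) := by
      rw [← Real.log_pos_iff hYpos.le]
      exact hlogpos.trans_le hlogY
    have h5 : ‖∫ ω, ee (y * (l i - l j) * F (Real.ofDigits ω)) ∂μ‖ =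
        ‖∫ ω, ee (|y| * (l i - l j) * F (Real.ofDigits ω)) ∂μ‖ := by
      rcases le_total 0 y with h | h
      · rw [abs_of_nonneg h]
      · rw [abs_of_nonpos h, ← norm_conj_int]
        congr 1
        refine integral_congr_ae (Eventually.of_forall fun ω => ?_)
        simp only
        congr 1; ring
    rw [h5]
    refine (hdec _ hY1).trans ?_
    calc C0 / Real.log (|y| * (l i - l j)) ^ 4 ≤ C0 / ((i : ℝ) * Real.log q / 2) ^ 4 := by
          gcongr
      _ = C0 * (2 / Real.log q) ^ 4 / (i : ℝ) ^ 4 := by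
          field_simp
      _ ≤ _ := by
          gcongr
          exact le_max_right _ _

/-- `F` is twice continuously differentiable near `u` and its second derivative does not vanish. -/
def Curved (F : ℝ → ℝ) (u : ℝ) : Prop := ContDiffAt ℝ 2 F u ∧ deriv (deriv F) u ≠ 0

lemma cda_deriv {F : ℝ → ℝ} {u : ℝ} {m n : WithTop ℕ∞} (h : ContDiffAt ℝ n F u) (hmn : m + 1 ≤ n) :
    ContDiffAt ℝ m (deriv F) u := by
  have h1 : ContDiffAt ℝ m (fun x => (fderiv ℝ F x) (1 : ℝ)) u :=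
    (h.fderiv_right hmn).clm_apply contDiffAt_const
  exact h1

lemma Curved.data {F : ℝ → ℝ} {u : ℝ} (h : Curved F u) :
    ∀ᶠ v in 𝓝 u, HasDerivAt F (deriv F v) v ∧ HasDerivAt (deriv F) (deriv (deriv F) v) v ∧
      |deriv (deriv F) v - deriv (deriv F) u| ≤ |deriv (deriv F) u| / 2 := by
  obtain ⟨h1, h2⟩ := h
  have h3 : ∀ᶠ v in 𝓝 u, ContDiffAt ℝ 2 F v := h1.eventually (by norm_num)
  have h4 : ContinuousAt (deriv (deriv F)) u := by
    have h5 : ContDiffAt ℝ 1 (deriv F) u := cda_deriv h1 (by norm_num)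
    have h6 : ContDiffAt ℝ 0 (deriv (deriv F)) u := cda_deriv h5 (by norm_num)
    exact h6.continuousAt
  have h5 : ∀ᶠ v in 𝓝 u, |deriv (deriv F) v - deriv (deriv F) u| < |deriv (deriv F) u| / 2 := by
    have h6 := Metric.continuousAt_iff'.1 h4 (|deriv (deriv F) u| / 2) (by positivity)
    filter_upwards [h6] with v hv
    rwa [Real.dist_eq] at hv
  filter_upwards [h3, h5] with v hv1 hv2
  refine ⟨(hv1.differentiableAt (by norm_num)).hasDerivAt, ?_, hv2.le⟩
  have h6 : ContDiffAt ℝ 1 (deriv F) v := cda_deriv hv1 (by norm_num)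
  exact (h6.differentiableAt (by norm_num)).hasDerivAt

/-- a cylinder on which `F` is uniformly convex -/
def Good (b : ℕ) [NeZero b] (F : ℝ → ℝ) (k : ℕ) (w : ℕ → Fin b) : Prop :=
  ∃ A : ℝ, 0 < A ∧ ∀ u, |u - Real.ofDigits w| ≤ ((b : ℝ) ^ k)⁻¹ → HasDerivAt F (deriv F u) u ∧
    HasDerivAt (deriv F) (deriv (deriv F) u) u ∧ A ≤ deriv (deriv F) u ∧ deriv (deriv F) u ≤ 3 * A

lemma Curved.good (hb : 2 ≤ b) {F : ℝ → ℝ} (ω : ℕ → Fin b) (h : Curved F (Real.ofDigits ω)) (k0 : ℕ) :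
    ∃ k, k0 ≤ k ∧ ((∀ w ∈ cyl k ω, Good b F k w) ∨ ∀ w ∈ cyl k ω, Good b (fun x => -F x) k w) := by
  have hb1 : (1 : ℝ) < b := by exact_mod_cast (by omega : 1 < b)
  obtain ⟨u, hu⟩ : ∃ u, u = Real.ofDigits ω := ⟨_, rfl⟩
  rw [← hu] at h
  obtain ⟨ε, hε, hdat⟩ := Metric.eventually_nhds_iff.1 h.data
  obtain ⟨k1, hk1⟩ := pow_unbounded_of_one_lt (2 / ε) hb1
  obtain ⟨k, hk⟩ : ∃ k, k = max k0 k1 := ⟨_, rfl⟩
  have hbk : 2 / ε < (b : ℝ) ^ k :=
    hk1.trans_le (pow_le_pow_right₀ hb1.le (by rw [hk]; exact le_max_right _ _))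
  have hbk0 : (0 : ℝ) < (b : ℝ) ^ k := by positivity
  have h2 : 2 * ((b : ℝ) ^ k)⁻¹ < ε := by
    rw [div_lt_iff₀ hε] at hbk
    rw [← div_eq_mul_inv, div_lt_iff₀ hbk0]
    linarith
  have hnear : ∀ w ∈ cyl k ω, ∀ v, |v - Real.ofDigits w| ≤ ((b : ℝ) ^ k)⁻¹ → dist v u < ε := by
    intro w hw v hv
    have h3 := cyl_near ω hw
    rw [← hu] at h3
    rw [Real.dist_eq]
    have h4 : |v - u| ≤ |v - Real.ofDigits w| + |Real.ofDigits w - u| := abs_sub_le _ _ _
    linarith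
  refine ⟨k, by rw [hk]; exact le_max_left _ _, ?_⟩
  rcases lt_or_gt_of_ne h.2 with hneg | hpos
  · right
    intro w hw
    refine ⟨-deriv (deriv F) u / 2, by linarith, fun v hv => ?_⟩
    obtain ⟨g1, g2, g3⟩ := hdat (hnear w hw v hv)
    rw [abs_of_neg hneg, abs_le] at g3
    have e1 : deriv (fun x => -F x) = fun x => -deriv F x := by
      funext x
      exact deriv.fun_neg
    have e2 : deriv (fun x => -deriv F x) = fun x => -deriv (deriv F) x := by
      funext x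
      exact deriv.fun_neg
    rw [e1, e2]
    refine ⟨g1.neg, g2.neg, ?_, ?_⟩ <;> simp only <;> linarith [g3.1, g3.2]
  · left
    intro w hw
    refine ⟨deriv (deriv F) u / 2, by linarith, fun v hv => ?_⟩
    obtain ⟨g1, g2, g3⟩ := hdat (hnear w hw v hv)
    rw [abs_of_pos hpos, abs_le] at g3
    exact ⟨g1, g2, by linarith [g3.1], by linarith [g3.2]⟩

/-- square root cancellation on a good cylinder -/
theorem good_cancel (hb : 2 ≤ b) (d : ℕ → Fin b) (T : Set ℕ) (c : ℝ) (hc0 : 0 ≤ c) (hc : c < 1 / 2)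
    (hT : Recurs b c T) :
    ∃ k0 : ℕ, ∀ (k : ℕ) (w : ℕ → Fin b) (F : ℝ → ℝ), k0 ≤ k → Measurable F → Good b F k w →
      ∀ (q : ℝ) (l : ℕ → ℝ), Lac q l → ∀ y : ℝ, y ≠ 0 →
      ∀ᵐ ω ∂((noise d T).restrict (cyl k w)), ∃ C : ℝ, ∀ N : ℕ,
        ‖∑ j ∈ range N, ee (y * l j * F (Real.ofDigits ω))‖ ≤ C * (Real.sqrt N * Real.log (N + 1) ^ 2) := by
  have hn' := noise_prob hb d T
  obtain ⟨k0, hk0⟩ := dec hb d T c hc0 hc hT
  refine ⟨k0, fun k w F hk hF hG q l hl y hy => ?_⟩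
  obtain ⟨A, hA, hG⟩ := hG
  obtain ⟨C0, hC0, hdec⟩ := hk0 k w F (deriv F) (deriv (deriv F)) A 3 hk hF (measurable_deriv F)
    (fun u hu => (hG u hu).1) (fun u hu => (hG u hu).2.1) hA (by norm_num)
    (fun u hu => (hG u hu).2.2.1) (fun u hu => (hG u hu).2.2.2)
  have hμ : ((noise d T).restrict (cyl k w)).real Set.univ ≤ 1 := by
    rw [measureReal_restrict_apply_univ]
    exact measureReal_le_one
  obtain ⟨C, hC0, hC⟩ := lac_cyl ((noise d T).restrict (cyl k w)) hμ F C0 hC0 hdec hl y hy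
  exact cancel_gen ((noise d T).restrict (cyl k w)) hμ (fun j ω => y * l j * F (Real.ofDigits ω))
    (fun j => (hF.comp s_meas).const_mul _) C hC0 hC

/-- **Noise under a curved function.** -/
theorem curved_cancel (hb : 2 ≤ b) (d : ℕ → Fin b) (T : Set ℕ) (c : ℝ) (hc : c < 1 / 2)
    (hT : Recurs b c T) (F : ℝ → ℝ) (hF : Measurable F) (q : ℝ) (l : ℕ → ℝ) (hl : Lac q l) (y : ℝ)
    (hy : y ≠ 0) :
    ∀ᵐ ω ∂(noise d T), Curved F (Real.ofDigits ω) → ∃ C : ℝ, ∀ N : ℕ,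
      ‖∑ j ∈ range N, ee (y * l j * F (Real.ofDigits ω))‖ ≤ C * (Real.sqrt N * Real.log (N + 1) ^ 2) := by
  have hT' : Recurs b (max c 0) T := hT.mono hb (le_max_left _ _)
  have hc' : max c 0 < 1 / 2 := max_lt hc (by norm_num)
  obtain ⟨k0, hk0⟩ := good_cancel hb d T (max c 0) (le_max_right _ _) hc' hT'
  have h1 : ∀ (p : (Σ k : ℕ, Fin k → Fin b)), k0 ≤ p.1 →
      (Good b F p.1 (extw p.2) ∨ Good b (fun x => -F x) p.1 (extw p.2)) →
      ∀ᵐ ω ∂(noise d T), ω ∈ cyl p.1 (extw p.2) → ∃ C : ℝ, ∀ N : ℕ,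
      ‖∑ j ∈ range N, ee (y * l j * F (Real.ofDigits ω))‖ ≤ C * (Real.sqrt N * Real.log (N + 1) ^ 2) := by
    intro p hp hG
    rw [← ae_restrict_iff' (cyl_meas _ _)]
    rcases hG with hG | hG
    · exact hk0 p.1 (extw p.2) F hp hF hG q l hl y hy
    · have h2 := hk0 p.1 (extw p.2) (fun x => -F x) hp hF.neg hG q l hl (-y) (neg_ne_zero.2 hy)
      simpa only [neg_mul, mul_neg, neg_neg] using h2
  have h2 : ∀ᵐ ω ∂(noise d T), ∀ (p : (Σ k : ℕ, Fin k → Fin b)), k0 ≤ p.1 →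
      (Good b F p.1 (extw p.2) ∨ Good b (fun x => -F x) p.1 (extw p.2)) →
      ω ∈ cyl p.1 (extw p.2) → ∃ C : ℝ, ∀ N : ℕ,
      ‖∑ j ∈ range N, ee (y * l j * F (Real.ofDigits ω))‖ ≤ C * (Real.sqrt N * Real.log (N + 1) ^ 2) := by
    rw [ae_all_iff]
    intro p
    by_cases hp : k0 ≤ p.1
    · by_cases hG : Good b F p.1 (extw p.2) ∨ Good b (fun x => -F x) p.1 (extw p.2)
      · filter_upwards [h1 p hp hG] with ω hω _ _
        exact hω
      · exact Eventually.of_forall fun ω _ h => absurd h hG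
    · exact Eventually.of_forall fun ω h => absurd h hp
  filter_upwards [h2] with ω hω hcur
  obtain ⟨k, hk, hgood⟩ := hcur.good hb ω k0
  have hmem : extw (fun i : Fin k => ω i) ∈ cyl k ω := by
    intro i hi
    unfold extw
    rw [dif_pos hi]
  have hmem' : ω ∈ cyl k (extw fun i : Fin k => ω i) := fun i hi => (hmem i hi).symm
  refine hω ⟨k, fun i : Fin k => ω i⟩ hk ?_ hmem'
  rcases hgood with h | h
  · exact Or.inl (h _ hmem)
  · exact Or.inr (h _ hmem)

end Q83.NQ
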