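import Pool.Agent.Q83.NQ.B

/-!
# Digit noise under curved functions: absolute normality
-/

set_option autoImplicit false
set_option linter.unusedSectionVars false

open MeasureTheory Filter Topology Finset
open scoped ENNReal
open Pool.Agent.H493R3 (ee ee_norm ee_add ee_neg ee_int ee_lip)
open Q83.NP

namespace Q83.NQ

open Classical in
/-- `x` is normal in base `a`: every word `v` of digits has frequency `a ^ (-k)`. -/
def NormalIn (a : ℕ) (x : ℝ) : Prop := ∀ (k : ℕ) (v : Fin k → Fin a),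
  Tendsto (fun N : ℕ => (#{j ∈ range N | ∀ i : Fin k,
    ⌊x * (a : ℝ) ^ (j + 1 + (i : ℕ))⌋ % (a : ℤ) = (((v i : ℕ)) : ℤ)} : ℝ) / N) atTop (𝓝 (1 / (a : ℝ) ^ k))

/-- `x` is absolutely normal: normal in every integer base. -/
def AbsNormal (x : ℝ) : Prop := ∀ a : ℕ, 2 ≤ a → NormalIn a x

/-- the bound for sums of `N` terms -/
noncomputable def bd (N : ℕ) : ℝ := Real.sqrt N * Real.log (N + 1) ^ 2

lemma bd_nonneg (N : ℕ) : 0 ≤ bd N := by unfold bd; positivity

lemma bd_small : Tendsto (fun N : ℕ => bd N / N) atTop (𝓝 0) := by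
  unfold bd
  have h3 : (fun x : ℝ => Real.log x ^ 2) =o[atTop] fun x : ℝ => x ^ (1 / 2 : ℝ) := by
    have := isLittleO_log_rpow_rpow_atTop (s := (1 / 2 : ℝ)) 2 (by norm_num)
    simpa using this
  have h4 : Tendsto (fun x : ℝ => Real.log x ^ 2 / x ^ (1 / 2 : ℝ)) atTop (𝓝 0) := h3.tendsto_div_nhds_zero
  have h5 : Tendsto (fun N : ℕ => Real.log ((N : ℝ) + 1) ^ 2 / ((N : ℝ) + 1) ^ (1 / 2 : ℝ)) atTop (𝓝 0) :=
    h4.comp (tendsto_atTop_add_const_right _ 1 tendsto_natCast_atTop_atTop)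
  have h6 : Tendsto (fun N : ℕ => 2 * (Real.log ((N : ℝ) + 1) ^ 2 / ((N : ℝ) + 1) ^ (1 / 2 : ℝ))) atTop (𝓝 0) := by
    simpa using h5.const_mul 2
  refine squeeze_zero' (Eventually.of_forall fun N => by positivity) ?_ h6
  filter_upwards [eventually_ge_atTop 1] with N hN
  have hNR : (1 : ℝ) ≤ N := by exact_mod_cast hN
  rw [← Real.sqrt_eq_rpow]
  have h7 : Real.sqrt N * Real.log (N + 1) ^ 2 / N = Real.log (N + 1) ^ 2 / Real.sqrt N := by
    rw [div_eq_div_iff (by positivity) (by positivity)]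
    have := Real.mul_self_sqrt (by linarith : (0 : ℝ) ≤ N)
    calc Real.sqrt N * Real.log (N + 1) ^ 2 * Real.sqrt N =
        Real.log (N + 1) ^ 2 * (Real.sqrt N * Real.sqrt N) := by ring
      _ = _ := by rw [this]
  rw [h7, ← mul_div_assoc, div_le_div_iff₀ (by positivity) (by positivity)]
  have h8 : Real.sqrt (N + 1) ≤ 2 * Real.sqrt N := by
    have : Real.sqrt (N + 1) ≤ Real.sqrt (4 * N) := Real.sqrt_le_sqrt (by linarith)
    rw [Real.sqrt_mul (by norm_num), show (4 : ℝ) = 2 ^ 2 by norm_num, Real.sqrt_sq (by norm_num)] at this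
    exact this
  calc Real.log (N + 1) ^ 2 * Real.sqrt (N + 1) ≤ Real.log (N + 1) ^ 2 * (2 * Real.sqrt N) := by gcongr
    _ = _ := by ring

/-- square root cancellation in all Weyl sums along the powers of all integers -/
def Cancels (x : ℝ) : Prop := ∀ a : ℕ, 2 ≤ a → ∀ h : ℤ, h ≠ 0 → ∃ C : ℝ, ∀ N : ℕ,
  ‖∑ j ∈ range N, Complex.exp (2 * Real.pi * Complex.I * ((h * ((a : ℝ) ^ j * x) : ℝ) : ℂ))‖ ≤
    C * (Real.sqrt N * Real.log (N + 1) ^ 2)

lemma ee_eq (t : ℝ) : ee t = Complex.exp (2 * Real.pi * Complex.I * (t : ℂ)) := by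
  unfold Pool.Agent.H493R3.ee
  congr 1; ring

lemma Cancels.absNormal {x : ℝ} (h : Cancels x) : AbsNormal x := by
  intro a ha k v
  refine Pool.Agent.H493R3.block_freq a ha x (fun m hm => ?_) k v
  obtain ⟨C, hC⟩ := h a ha m (by exact_mod_cast (by omega : m ≠ 0))
  have h1 : ∀ N : ℕ, ‖∑ j ∈ range N, ee ((m : ℝ) * (x * (a : ℝ) ^ j))‖ / N ≤ (max C 0) * (bd N / N) := by
    intro N
    rw [← mul_div_assoc]
    have h2 := hC N
    have e1 : ∑ j ∈ range N, ee ((m : ℝ) * (x * (a : ℝ) ^ j)) =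
        ∑ j ∈ range N, Complex.exp (2 * Real.pi * Complex.I * ((((m : ℤ) : ℝ) * ((a : ℝ) ^ j * x) : ℝ) : ℂ)) := by
      refine Finset.sum_congr rfl fun j _ => ?_
      rw [ee_eq, Int.cast_natCast, mul_comm x]
    rw [e1]
    gcongr
    refine h2.trans ?_
    exact mul_le_mul_of_nonneg_right (le_max_left _ _) (bd_nonneg N)
  refine squeeze_zero (fun N => by positivity) h1 ?_
  simpa using bd_small.const_mul (max C 0)

variable {b : ℕ} [NeZero b]

lemma lac_pow (a : ℕ) (ha : 2 ≤ a) : Lac (a : ℝ) fun j => (a : ℝ) ^ j where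
  one_lt := by exact_mod_cast (by omega : 1 < a)
  pos := by simp
  step := fun j => by rw [pow_succ]; linarith [mul_comm ((a : ℝ) ^ j) (a : ℝ)]

/-- almost surely all the values at curved points have square root cancellation -/
theorem cancels_ae (hb : 2 ≤ b) (d : ℕ → Fin b) (T : Set ℕ) (c : ℝ) (hc : c < 1 / 2)
    (hT : Recurs b c T) (F : ℝ → ℝ) (hF : Measurable F) :
    ∀ᵐ ω ∂(noise d T), Curved F (Real.ofDigits ω) → Cancels (F (Real.ofDigits ω)) := by
  have h1 : ∀ᵐ ω ∂(noise d T), ∀ p : ℕ × ℤ, 2 ≤ p.1 → p.2 ≠ 0 → Curved F (Real.ofDigits ω) →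
      ∃ C : ℝ, ∀ N : ℕ,
      ‖∑ j ∈ range N, ee (p.2 * (p.1 : ℝ) ^ j * F (Real.ofDigits ω))‖ ≤
        C * (Real.sqrt N * Real.log (N + 1) ^ 2) := by
    rw [ae_all_iff]
    intro p
    by_cases hp1 : 2 ≤ p.1
    · by_cases hp2 : p.2 ≠ 0
      · filter_upwards [curved_cancel hb d T c hc hT F hF (p.1 : ℝ) (fun j => (p.1 : ℝ) ^ j)
          (lac_pow p.1 hp1) p.2 (by exact_mod_cast hp2)] with ω hω _ _
        exact hω
      · exact Eventually.of_forall fun ω _ h => absurd h hp2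
    · exact Eventually.of_forall fun ω h => absurd h hp1
  filter_upwards [h1] with ω hω hcur a ha h hh
  obtain ⟨C, hC⟩ := hω (a, h) ha hh hcur
  refine ⟨C, fun N => ?_⟩
  have := hC N
  simp_rw [ee_eq, mul_assoc] at this
  simp_rw [mul_assoc]
  exact this

/-- composition with a nonconstant affine map -/
lemma Curved.affine {F : ℝ → ℝ} {x r u : ℝ} (hr : r ≠ 0) (h : Curved F (x + r * u)) :
    Curved (fun v => F (x + r * v)) u := by
  obtain ⟨h1, h2⟩ := h
  have haff : ContDiff ℝ 2 fun v : ℝ => x + r * v := by fun_prop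
  refine ⟨ContDiffAt.comp u h1 haff.contDiffAt, ?_⟩
  have hd : ∀ v, HasDerivAt (fun v : ℝ => x + r * v) r v := fun v => by
    simpa using ((hasDerivAt_id v).const_mul r).const_add x
  have h3 : ∀ᶠ v in 𝓝 u, ContDiffAt ℝ 2 F (x + r * v) :=
    (haff.continuous.continuousAt (x := u)).eventually (h1.eventually (by norm_num))
  have h4 : deriv (fun v => F (x + r * v)) =ᶠ[𝓝 u] fun v => deriv F (x + r * v) * r := by
    filter_upwards [h3] with v hv
    exact ((hv.differentiableAt (by norm_num)).hasDerivAt.comp v (hd v)).deriv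
  rw [h4.deriv_eq]
  have h5 : ContDiffAt ℝ 1 (deriv F) (x + r * u) := cda_deriv h1 (by norm_num)
  have h6 := (((h5.differentiableAt (by norm_num)).hasDerivAt.comp u (hd u)).mul_const r).deriv
  have e1 : (deriv F ∘ fun v => x + r * v) = fun v => deriv F (x + r * v) := rfl
  rw [show (fun v => deriv F (x + r * v) * r) = fun v => (deriv F ∘ fun v => x + r * v) v * r from rfl, h6]
  exact mul_ne_zero (mul_ne_zero h2 hr) hr

theorem cancels_affine (hb : 2 ≤ b) (d : ℕ → Fin b) (T : Set ℕ) (c : ℝ) (hc : c < 1 / 2)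
    (hT : Recurs b c T) (x r : ℝ) (hr : r ≠ 0) (F : ℝ → ℝ) (hF : Measurable F) :
    ∀ᵐ ω ∂(noise d T), Curved F (x + r * Real.ofDigits ω) → Cancels (F (x + r * Real.ofDigits ω)) := by
  filter_upwards [cancels_ae hb d T c hc hT (fun v => F (x + r * v))
    (hF.comp ((measurable_id.const_mul r).const_add x))] with ω hω hcur
  exact hω (hcur.affine hr)

/-- the square root is curved -/
lemma curved_sqrt {u : ℝ} (hu : 0 < u) : Curved Real.sqrt u := by
  refine ⟨Real.contDiffAt_sqrt hu.ne', ?_⟩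
  have h1 : deriv Real.sqrt =ᶠ[𝓝 u] fun v => 1 / (2 * Real.sqrt v) := by
    filter_upwards [lt_mem_nhds hu] with v hv
    exact (Real.hasDerivAt_sqrt hv.ne').deriv
  rw [h1.deriv_eq]
  have h2 : HasDerivAt (fun v => 1 / (2 * Real.sqrt v))
      ((0 * (2 * Real.sqrt u) - 1 * (2 * (1 / (2 * Real.sqrt u)))) / (2 * Real.sqrt u) ^ 2) u :=
    (hasDerivAt_const u (1 : ℝ)).div ((Real.hasDerivAt_sqrt hu.ne').const_mul 2)
      (by have := Real.sqrt_pos.2 hu; positivity)
  rw [h2.deriv]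
  have h3 := Real.sqrt_pos.2 hu
  have h4 : (0 * (2 * Real.sqrt u) - 1 * (2 * (1 / (2 * Real.sqrt u)))) / (2 * Real.sqrt u) ^ 2 < 0 := by
    apply div_neg_of_neg_of_pos _ (by positivity)
    have : 0 < 1 * (2 * (1 / (2 * Real.sqrt u))) := by positivity
    linarith
  exact h4.ne

end Q83.NQ
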