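import Pool.Agent.Q83.NQ.C

/-!
# A finite form of Weyl's criterion for digits
-/

set_option autoImplicit false
set_option linter.unusedSectionVars false

open MeasureTheory Filter Topology
open scoped ENNReal
open Pool.Agent.H493R3 (ee ee_norm ee_add ee_neg ee_int ee_lip Circ avg)
open Q83.NP

namespace Q83.NQ

/-- the Weyl sums of the frequencies up to `H` are at most `δ` times the length -/
def SmallW (H : ℕ) (δ : ℝ) (x : ℕ → Circ) (N : ℕ) : Prop :=
  ∀ n : ℤ, n ≠ 0 → n.natAbs ≤ H → ‖avg x (fun y => (fourier n y : ℂ)) N‖ ≤ δ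

lemma SmallW.mono {H H' : ℕ} {δ δ' : ℝ} {x : ℕ → Circ} {N : ℕ} (h : SmallW H δ x N) (hH : H' ≤ H)
    (hδ : δ ≤ δ') : SmallW H' δ' x N := fun n hn hn' => (h n hn (hn'.trans hH)).trans hδ

/-- finite Weyl criterion, continuous functions -/
theorem finite_cont (g : C(Circ, ℂ)) (ε : ℝ) (hε : 0 < ε) :
    ∃ (H : ℕ) (δ : ℝ), 0 < δ ∧ ∀ (x : ℕ → Circ) (N : ℕ), 0 < N → SmallW H δ x N →
      ‖avg x g N - ∫ y : Circ, g y‖ ≤ ε := by
  have hmem : ∀ f ∈ (Submodule.span ℂ (Set.range <| @fourier 1)), ∀ ε : ℝ, 0 < ε →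
      ∃ (H : ℕ) (δ : ℝ), 0 < δ ∧ ∀ (x : ℕ → Circ) (N : ℕ), 0 < N → SmallW H δ x N →
      ‖avg x f N - ∫ y : Circ, f y‖ ≤ ε := by
    intro f hf
    induction hf using Submodule.span_induction with
    | mem f hf =>
      obtain ⟨n, rfl⟩ := hf
      intro ε hε
      by_cases hn : n = 0
      · subst hn
        refine ⟨0, 1, one_pos, fun x N hN _ => ?_⟩
        have h1 : avg x (fun y => (fourier 0 y : ℂ)) N = 1 := by
          unfold Pool.Agent.H493R3.avg
          simp only [fourier_zero, Finset.sum_const, Finset.card_range, nsmul_eq_mul, mul_one]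
          have : (N : ℂ) ≠ 0 := by exact_mod_cast hN.ne'
          field_simp
        have hint : ∫ y : Circ, (fourier 0 y : ℂ) = 1 := by
          simp [fourier_zero, Measure.real]
        rw [h1, hint, sub_self, norm_zero]
        exact hε.le
      · refine ⟨n.natAbs, ε, hε, fun x N hN hx => ?_⟩
        rw [Pool.Agent.H493R3.integral_fourier_eq_zero hn, sub_zero]
        exact hx n hn le_rfl
    | zero =>
      intro ε hε
      refine ⟨0, 1, one_pos, fun x N hN _ => ?_⟩
      simp [Pool.Agent.H493R3.avg, hε.le]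
    | add f g hf hg ihf ihg =>
      intro ε hε
      obtain ⟨H1, δ1, hδ1, h1⟩ := ihf (ε / 2) (by positivity)
      obtain ⟨H2, δ2, hδ2, h2⟩ := ihg (ε / 2) (by positivity)
      refine ⟨max H1 H2, min δ1 δ2, lt_min hδ1 hδ2, fun x N hN hx => ?_⟩
      have hi : ∫ y : Circ, (f + g) y = (∫ y : Circ, f y) + ∫ y : Circ, g y := by
        have := integral_add (μ := (volume : Measure Circ)) (f := f) (g := g)
          (f.continuous.integrable_of_hasCompactSupport (HasCompactSupport.of_compactSpace _))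
          (g.continuous.integrable_of_hasCompactSupport (HasCompactSupport.of_compactSpace _))
        simpa using this
      have ha : avg x (f + g : C(Circ, ℂ)) N = avg x f N + avg x g N := by
        unfold Pool.Agent.H493R3.avg
        rw [← add_div, ← Finset.sum_add_distrib]; rfl
      rw [hi, ha]
      have h3 := h1 x N hN (hx.mono (le_max_left _ _) (min_le_left _ _))
      have h4 := h2 x N hN (hx.mono (le_max_right _ _) (min_le_right _ _))
      calc ‖avg x f N + avg x g N - ((∫ y : Circ, f y) + ∫ y : Circ, g y)‖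
          = ‖(avg x f N - ∫ y : Circ, f y) + (avg x g N - ∫ y : Circ, g y)‖ := by congr 1; ring
        _ ≤ _ := norm_add_le _ _
        _ ≤ ε := by linarith
    | smul c f hf ihf =>
      intro ε hε
      obtain ⟨H1, δ1, hδ1, h1⟩ := ihf (ε / (‖c‖ + 1)) (by positivity)
      refine ⟨H1, δ1, hδ1, fun x N hN hx => ?_⟩
      have hi : ∫ y : Circ, (c • f) y = c * (∫ y : Circ, f y) := by
        simp [integral_const_mul]
      have ha : avg x (c • f : C(Circ, ℂ)) N = c * avg x f N := by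
        unfold Pool.Agent.H493R3.avg
        simp only [ContinuousMap.coe_smul, Pi.smul_apply, smul_eq_mul]
        rw [← Finset.mul_sum, mul_div_assoc]
      rw [hi, ha, ← mul_sub, norm_mul]
      have h2 := h1 x N hN hx
      rw [le_div_iff₀ (by positivity)] at h2
      nlinarith [norm_nonneg c, norm_nonneg (avg x f N - ∫ y : Circ, f y)]
  have hcl : g ∈ (Submodule.span ℂ (Set.range <| @fourier 1)).topologicalClosure := by
    rw [span_fourier_closure_eq_top]; trivial
  rw [← SetLike.mem_coe, Submodule.topologicalClosure_coe, Metric.mem_closure_iff] at hcl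
  obtain ⟨f, hf, hfd⟩ := hcl (ε / 3) (by positivity)
  obtain ⟨H, δ, hδ, hH⟩ := hmem f hf (ε / 3) (by positivity)
  refine ⟨H, δ, hδ, fun x N hN hx => ?_⟩
  have h1 := hH x N hN hx
  have h2 : ‖avg x g N - avg x f N‖ ≤ ‖g - f‖ := Pool.Agent.H493R3.avg_norm_sub_le x g f N
  have h3 : ‖(∫ y : Circ, f y) - ∫ y : Circ, g y‖ ≤ ‖g - f‖ := by
    rw [← integral_sub (f.continuous.integrable_of_hasCompactSupport (HasCompactSupport.of_compactSpace _))
      (g.continuous.integrable_of_hasCompactSupport (HasCompactSupport.of_compactSpace _))]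
    calc ‖∫ y : Circ, (f y - g y)‖ ≤ ‖g - f‖ * (volume : Measure Circ).real Set.univ := by
          apply norm_integral_le_of_norm_le_const
          filter_upwards with y
          rw [norm_sub_rev]
          exact (g - f).norm_coe_le_norm y
      _ = ‖g - f‖ := by simp [Measure.real]
  have h4 : ‖g - f‖ < ε / 3 := by rw [← dist_eq_norm]; exact hfd
  calc ‖avg x g N - ∫ y : Circ, g y‖
      = ‖(avg x g N - avg x f N) + (avg x f N - ∫ y : Circ, f y) +
        ((∫ y : Circ, f y) - ∫ y : Circ, g y)‖ := by congr 1; ring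
    _ ≤ ‖avg x g N - avg x f N‖ + ‖avg x f N - ∫ y : Circ, f y‖ +
        ‖(∫ y : Circ, f y) - ∫ y : Circ, g y‖ := norm_add₃_le
    _ ≤ ε := by linarith

open Classical in
/-- finite Weyl criterion, closed sets -/
theorem finite_closed {E : Set Circ} (hE : IsClosed E) (v : ℝ) (hv : 0 ≤ v)
    (hEv : volume E ≤ ENNReal.ofReal v) (ε : ℝ) (hε : 0 < ε) :
    ∃ (H : ℕ) (δ : ℝ), 0 < δ ∧ ∀ (x : ℕ → Circ) (N : ℕ), 0 < N → SmallW H δ x N →
      (((Finset.range N).filter (fun m => x m ∈ E)).card : ℝ) / N ≤ v + ε := by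
  obtain ⟨U, hNU, hUo, hUv⟩ : ∃ U ⊇ E, IsOpen U ∧ volume U < ENNReal.ofReal (v + ε / 2) :=
    E.exists_isOpen_lt_of_lt _ (by
      refine lt_of_le_of_lt hEv ?_
      exact (ENNReal.ofReal_lt_ofReal_iff (by linarith)).2 (by linarith))
  obtain ⟨g, hg0, hg1, hg01⟩ := exists_continuous_zero_one_of_isClosed hUo.isClosed_compl hE
    (by rw [Set.disjoint_compl_left_iff_subset]; exact hNU)
  obtain ⟨h, hh⟩ : ∃ h : C(Circ, ℂ), ∀ x, h x = (g x : ℂ) := ⟨⟨fun x => (g x : ℂ), by fun_prop⟩, fun _ => rfl⟩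
  have hint : (∫ y : Circ, h y).re ≤ v + ε / 2 := by
    have h1 : ∫ y : Circ, h y = ((∫ y : Circ, g y : ℝ) : ℂ) := by
      simp_rw [hh]
      exact integral_ofReal
    rw [h1, Complex.ofReal_re]
    have h2 : ∫ y : Circ, g y ≤ ∫ y : Circ, U.indicator (fun _ => (1 : ℝ)) y := by
      apply integral_mono
      · exact g.continuous.integrable_of_hasCompactSupport (HasCompactSupport.of_compactSpace _)
      · exact (integrable_indicator_iff hUo.measurableSet).2 (integrableOn_const (by simp) )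
      · intro y
        by_cases hy : y ∈ U
        · simp only [hy, Set.indicator_of_mem]; exact (hg01 y).2
        · simp only [hy, not_false_eq_true, Set.indicator_of_notMem]
          exact le_of_eq (hg0 hy)
    rw [integral_indicator hUo.measurableSet] at h2
    simp only [integral_const, MeasurableSet.univ, measureReal_restrict_apply, Set.univ_inter, smul_eq_mul, mul_one] at h2
    refine h2.trans ?_
    rw [Measure.real]
    exact ENNReal.toReal_le_of_le_ofReal (by positivity) hUv.le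
  obtain ⟨H, δ, hδ, hH⟩ := finite_cont h (ε / 2) (by positivity)
  refine ⟨H, δ, hδ, fun x N hN hx => ?_⟩
  have h1 := hH x N hN hx
  have h2 : (avg x h N).re ≤ v + ε := by
    have h3 := (Complex.abs_re_le_norm _).trans h1
    rw [Complex.sub_re] at h3
    have := (abs_le.1 h3).2
    linarith
  refine le_trans ?_ h2
  unfold Pool.Agent.H493R3.avg
  have : (∑ m ∈ Finset.range N, h (x m)) / (N : ℂ) = (((∑ m ∈ Finset.range N, g (x m)) / N : ℝ) : ℂ) := by
    simp_rw [hh]
    push_cast; rfl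
  rw [this, Complex.ofReal_re]
  gcongr
  rw [Finset.card_filter]
  push_cast
  gcongr with m _
  split_ifs with hm
  · have := hg1 hm
    simp only [Pi.one_apply] at this
    rw [this]
  · exact (hg01 _).1

open Classical in
/-- finite Weyl criterion, digits -/
theorem finite_words (b : ℕ) (hb : 2 ≤ b) (k : ℕ) (ε : ℝ) (hε : 0 < ε) :
    ∃ (H : ℕ) (δ : ℝ), 0 < δ ∧ ∀ (ξ : ℝ) (N : ℕ), 0 < N →
      (∀ h : ℕ, 1 ≤ h → h ≤ H → ‖∑ j ∈ Finset.range N, ee (h * (ξ * (b : ℝ) ^ j))‖ ≤ δ * N) →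
      ∀ v : Fin k → Fin b, |(((Finset.range N).filter (fun j : ℕ => ∀ i : Fin k,
        ⌊ξ * (b : ℝ) ^ (j + 1 + (i : ℕ))⌋ % (b : ℤ) = (((v i : ℕ)) : ℤ))).card : ℝ) - N / (b : ℝ) ^ k| ≤
          ε * N := by
  have hb0 : (0 : ℝ) < b := by exact_mod_cast (by omega : 0 < b)
  have hbk : (0 : ℝ) < (b : ℝ) ^ k := by positivity
  obtain ⟨η, hη⟩ : ∃ η : ℝ, η = ε / (b : ℝ) ^ k := ⟨_, rfl⟩
  have hη0 : 0 < η := by rw [hη]; positivity
  have hup : ∀ v : Fin k → Fin b, ∃ (H : ℕ) (δ : ℝ), 0 < δ ∧ ∀ (x : ℕ → Circ) (N : ℕ), 0 < N →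
      SmallW H δ x N → (((Finset.range N).filter (fun m => x m ∈ Pool.Agent.H493R3.arc v)).card : ℝ) / N ≤
        1 / (b : ℝ) ^ k + η := by
    intro v
    have hcl : IsClosed (Pool.Agent.H493R3.arc v) :=
      (isCompact_Icc.image (AddCircle.continuous_mk' (1 : ℝ))).isClosed
    have hv : volume (Pool.Agent.H493R3.arc v) ≤ ENNReal.ofReal (1 / (b : ℝ) ^ k) := by
      have h1 := Pool.Agent.H493R3.volume_arc
        ((Pool.Agent.H493R3.cv b (Pool.Agent.H493R3.ext0 v) k : ℝ) / (b : ℝ) ^ k)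
        (((Pool.Agent.H493R3.cv b (Pool.Agent.H493R3.ext0 v) k : ℝ) + 1) / (b : ℝ) ^ k) (by
          rw [add_div]
          have : 1 / (b : ℝ) ^ k ≤ 1 := by
            rw [div_le_one hbk]
            exact one_le_pow₀ (by exact_mod_cast (by omega : 1 ≤ b))
          linarith)
      have e : ((Pool.Agent.H493R3.cv b (Pool.Agent.H493R3.ext0 v) k : ℝ) + 1) / (b : ℝ) ^ k -
          (Pool.Agent.H493R3.cv b (Pool.Agent.H493R3.ext0 v) k : ℝ) / (b : ℝ) ^ k = 1 / (b : ℝ) ^ k := by ring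
      rwa [e] at h1
    exact finite_closed hcl (1 / (b : ℝ) ^ k) (by positivity) hv η hη0
  choose H δ hδ hH using hup
  obtain ⟨δ0, hδ0, hδ0'⟩ : ∃ δ0 : ℝ, 0 < δ0 ∧ ∀ v, δ0 ≤ δ v := by
    have hfin : (Set.finite_univ (α := Fin k → Fin b)).toFinset.Nonempty ∨
        (Set.finite_univ (α := Fin k → Fin b)).toFinset = ∅ :=
      (Finset.eq_empty_or_nonempty _).symm
    rcases hfin with hne | hem
    · refine ⟨(Set.finite_univ (α := Fin k → Fin b)).toFinset.inf' hne δ, ?_, fun v => ?_⟩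
      · rw [Finset.lt_inf'_iff]
        exact fun v _ => hδ v
      · exact Finset.inf'_le δ (by simp)
    · refine ⟨1, one_pos, fun v => ?_⟩
      have : v ∈ (Set.finite_univ (α := Fin k → Fin b)).toFinset := by simp
      rw [hem] at this
      exact absurd this (Finset.notMem_empty v)
  refine ⟨Finset.univ.sup H, δ0, hδ0, fun ξ N hN hW v => ?_⟩
  have hNR : (0 : ℝ) < N := by exact_mod_cast hN
  obtain ⟨x, hxd⟩ : ∃ x : ℕ → Circ, x = fun j => ((ξ * (b : ℝ) ^ j : ℝ) : Circ) := ⟨_, rfl⟩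
  have hx : SmallW (Finset.univ.sup H) δ0 x N := by
    intro n hn hnH
    have hn1 : 1 ≤ n.natAbs := Int.natAbs_pos.mpr hn
    have h1 := hW n.natAbs hn1 hnH
    unfold Pool.Agent.H493R3.avg
    rw [norm_div, Complex.norm_natCast, div_le_iff₀ hNR]
    refine le_trans (le_of_eq ?_) h1
    have e : ∀ j, (fourier n (x j) : ℂ) = ee (n * (ξ * (b : ℝ) ^ j)) := by
      intro j
      rw [hxd, Pool.Agent.H493R3.fourier_ee]
    simp_rw [e]
    rcases Int.natAbs_eq n with h | h
    · have h2 : (n : ℝ) = (n.natAbs : ℝ) := by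
        have : ((n : ℤ) : ℝ) = (((n.natAbs : ℕ) : ℤ) : ℝ) := by rw [← h]
        rw [this, Int.cast_natCast]
      rw [h2]
    · have h2 : (n : ℝ) = -(n.natAbs : ℝ) := by
        have : ((n : ℤ) : ℝ) = ((-((n.natAbs : ℕ) : ℤ) : ℤ) : ℝ) := by rw [← h]
        rw [this, Int.cast_neg, Int.cast_natCast]
      rw [h2]
      have e2 : ∀ j, ee (-(n.natAbs : ℝ) * (ξ * (b : ℝ) ^ j)) =
          (starRingEnd ℂ) (ee ((n.natAbs : ℝ) * (ξ * (b : ℝ) ^ j))) := by
        intro j
        rw [neg_mul, ee_neg]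
      simp_rw [e2]
      rw [← map_sum, RCLike.norm_conj]
  obtain ⟨cnt, hcnt⟩ : ∃ cnt : (Fin k → Fin b) → ℝ, cnt = fun d =>
      (((Finset.range N).filter (fun j : ℕ => Pool.Agent.H493R3.dig b hb ξ k j = d)).card : ℝ) := ⟨_, rfl⟩
  have h1 : ∀ d, cnt d ≤ (1 / (b : ℝ) ^ k + η) * N := by
    intro d
    have h2 := hH d x N hN (hx.mono (Finset.le_sup (Finset.mem_univ d)) (hδ0' d))
    rw [div_le_iff₀ hNR] at h2
    refine le_trans ?_ h2
    rw [hcnt]
    simp only
    gcongr with j hj1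
    intro j
    rw [hxd]
    exact Pool.Agent.H493R3.mem_arc b hb ξ k _ d j
  have hsum : ∑ d : Fin k → Fin b, cnt d = N := by
    rw [hcnt]
    simp only
    rw [← Nat.cast_sum]
    congr 1
    have := Finset.card_eq_sum_card_fiberwise (f := Pool.Agent.H493R3.dig b hb ξ k) (s := Finset.range N)
      (t := Finset.univ) (fun _ _ => Finset.mem_coe.2 (Finset.mem_univ _))
    rw [Finset.card_range] at this
    exact this.symm
  have hcv : (((Finset.range N).filter (fun j : ℕ => ∀ i : Fin k,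
      ⌊ξ * (b : ℝ) ^ (j + 1 + (i : ℕ))⌋ % (b : ℤ) = (((v i : ℕ)) : ℤ))).card : ℝ) = cnt v := by
    rw [hcnt]
    simp only
    congr 2
    ext j
    rw [Finset.mem_filter, Finset.mem_filter, Pool.Agent.H493R3.dig_iff b hb ξ k j v]
  rw [hcv, abs_le]
  have hbk1 : (1 : ℝ) ≤ (b : ℝ) ^ k := one_le_pow₀ (by exact_mod_cast (by omega : 1 ≤ b))
  have hηε : η * (b : ℝ) ^ k = ε := by rw [hη]; field_simp
  have hηε2 : η ≤ ε := by nlinarith
  constructor
  · have h4 : ∑ d' ∈ Finset.univ.erase v, cnt d' ≤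
        ∑ d' ∈ Finset.univ.erase v, (1 / (b : ℝ) ^ k + η) * N :=
      Finset.sum_le_sum (fun d' _ => h1 d')
    have h5 := Finset.add_sum_erase Finset.univ cnt (Finset.mem_univ v)
    rw [hsum] at h5
    rw [Finset.sum_const, nsmul_eq_mul, Finset.card_erase_of_mem (Finset.mem_univ v),
      Finset.card_univ, Fintype.card_fun, Fintype.card_fin, Fintype.card_fin] at h4
    have h6 : ((b ^ k - 1 : ℕ) : ℝ) = (b : ℝ) ^ k - 1 := by
      rw [Nat.cast_sub (Nat.one_le_pow _ _ (by omega))]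
      push_cast; ring
    rw [h6] at h4
    have h7 : ((b : ℝ) ^ k - 1) * ((1 / (b : ℝ) ^ k + η) * N) = N - N / (b : ℝ) ^ k +
        (η * (b : ℝ) ^ k) * N - η * N := by
      field_simp
      ring
    rw [h7, hηε] at h4
    have h8 : 0 < η * N := by positivity
    linarith
  · have h2 := h1 v
    have e1 : (1 / (b : ℝ) ^ k + η) * N = N / (b : ℝ) ^ k + η * N := by ring
    rw [e1] at h2
    have h3 : η * N ≤ ε * N := by gcongr
    linarith

end Q83.NQ
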