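import Pool.Agent.Q83.NQ.D

/-!
# Finitely many noisy digits: square roots of rationals
-/

set_option autoImplicit false
set_option linter.unusedSectionVars false

open MeasureTheory Filter Topology Finset
open scoped ENNReal
open Pool.Agent.H493R3 (ee ee_norm ee_add ee_neg ee_int ee_lip)
open Q83.NP

namespace Q83.NQ

variable {b : ℕ} [NeZero b]

open Classical in
/-- the words of length `M` with the prescribed digits `d` at the places outside `T` -/
noncomputable def words (d : ℕ → Fin b) (T : Set ℕ) (M : ℕ) : Finset (Fin M → Fin b) :=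
  {w | ∀ i : Fin M, (i : ℕ) ∉ T → w i = d i}

/-- the rational number with the base `b` digits `w` -/
noncomputable def val {M : ℕ} (w : Fin M → Fin b) : ℝ := ∑ i : Fin M, ((w i : ℕ) : ℝ) / (b : ℝ) ^ ((i : ℕ) + 1)

lemma val_eq {M : ℕ} (w : Fin M → Fin b) : val w = Real.ofDigits (extw w) := by
  unfold val Real.ofDigits
  rw [tsum_eq_sum (s := range M)]
  · rw [Finset.sum_range]
    refine Finset.sum_congr rfl fun i _ => ?_
    unfold Real.ofDigitsTerm extw
    rw [dif_pos i.2, div_eq_mul_inv]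
  · intro n hn
    unfold Real.ofDigitsTerm extw
    rw [dif_neg (by simpa using hn)]
    simp

open Classical in
lemma cyl_prob (hb : 2 ≤ b) (d : ℕ → Fin b) (T : Set ℕ) {M : ℕ} (w : Fin M → Fin b)
    (hw : w ∈ words d T M) :
    (noise d T).real (cyl M (extw w)) = ((b : ℝ) ^ #{i ∈ range M | i ∈ T})⁻¹ := by
  have hp : ∀ i, IsProbabilityMeasure (if i ∈ T then fair b else Measure.dirac (d i)) :=
    marg_prob hb d T
  have hw' : ∀ i : Fin M, (i : ℕ) ∉ T → w i = d i := by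
    unfold words at hw
    rw [Finset.mem_filter] at hw
    exact hw.2
  have e1 : cyl M (extw w) = Set.pi (range M : Finset ℕ) fun i => {extw w i} := by
    ext ω; simp [cyl, Set.mem_pi]
  have h1 : noise d T (cyl M (extw w)) = ((b : ℝ≥0∞) ^ #{i ∈ range M | i ∈ T})⁻¹ := by
    rw [e1, noise, Measure.infinitePi_pi _ fun j _ => measurableSet_singleton _]
    have h2 : ∀ i ∈ range M, (if i ∈ T then fair b else Measure.dirac (d i)) {extw w i} =
        if i ∈ T then (b : ℝ≥0∞)⁻¹ else 1 := by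
      intro i hi
      rw [Finset.mem_range] at hi
      by_cases hT : i ∈ T
      · rw [if_pos hT, if_pos hT, fair, Measure.smul_apply, Measure.count_singleton, smul_eq_mul, mul_one]
      · rw [if_neg hT, if_neg hT]
        have : extw w i = d i := by
          unfold extw
          rw [dif_pos hi]
          exact hw' ⟨i, hi⟩ hT
        rw [this]
        simp
    rw [Finset.prod_congr rfl h2, Finset.prod_ite, Finset.prod_const, Finset.prod_const_one, mul_one,
      ENNReal.inv_pow]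
  rw [measureReal_def, h1, ENNReal.toReal_inv, ENNReal.toReal_pow, ENNReal.toReal_natCast]

/-- few bad words -/
theorem few_bad (hb : 2 ≤ b) (d : ℕ → Fin b) (T : Set ℕ) (M : ℕ) (P : (Fin M → Fin b) → Prop)
    [hP : DecidablePred fun w : Fin M → Fin b => ¬ P w] [hTd : DecidablePred fun i : ℕ => i ∈ T]
    (S : Set (ℕ → Fin b)) (hS : ∀ ω ∈ S, P fun i => ω i) (ε : ℝ) (hμ : 1 - ε ≤ (noise d T).real S) :
    (#{w ∈ words d T M | ¬ P w} : ℝ) ≤ ε * (b : ℝ) ^ #{i ∈ range M | i ∈ T} := by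
  have hprob := noise_prob hb d T
  obtain ⟨B, hB⟩ : ∃ B, B = (words d T M).filter fun w => ¬ P w := ⟨_, rfl⟩
  have hcyl : ∀ w ∈ words d T M, (noise d T).real (cyl M (extw w)) =
      ((b : ℝ) ^ #{i ∈ range M | i ∈ T})⁻¹ := by
    intro w hw
    have := cyl_prob hb d T w hw
    rw [this]
    congr 3
    exact Finset.filter_congr_decidable _ _ _
  rw [← hB]
  have hb0 : (0 : ℝ) < b := by exact_mod_cast (by omega : 0 < b)
  have hdisj : (B : Set (Fin M → Fin b)).PairwiseDisjoint fun w => cyl M (extw w) := by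
    intro w _ w' _ hne
    rw [Function.onFun, Set.disjoint_left]
    intro ω h1 h2
    apply hne
    funext i
    have h3 := h1 i i.2
    have h4 := h2 i i.2
    unfold extw at h3 h4
    rw [dif_pos i.2] at h3 h4
    rw [← h3, ← h4]
  have hU : (noise d T).real (⋃ w ∈ B, cyl M (extw w)) =
      (#B : ℝ) * ((b : ℝ) ^ #{i ∈ range M | i ∈ T})⁻¹ := by
    rw [measureReal_biUnion_finset hdisj fun w _ => cyl_meas _ _]
    rw [Finset.sum_congr rfl fun w hw => hcyl w (by
      rw [hB, Finset.mem_filter] at hw; exact hw.1), Finset.sum_const, nsmul_eq_mul]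
  have hUm : MeasurableSet (⋃ w ∈ B, cyl M (extw w)) :=
    Finset.measurableSet_biUnion _ fun w _ => cyl_meas _ _
  have hSU : S ⊆ (⋃ w ∈ B, cyl M (extw w))ᶜ := by
    intro ω hω hcon
    rw [Set.mem_iUnion₂] at hcon
    obtain ⟨w, hw, hωw⟩ := hcon
    have h1 : (fun i : Fin M => ω i) = w := by
      funext i
      have h3 := hωw i i.2
      unfold extw at h3
      rw [dif_pos i.2] at h3
      exact h3
    have h2 := hS ω hω
    rw [h1] at h2
    rw [hB, Finset.mem_filter] at hw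
    exact hw.2 h2
  have h1 := measureReal_mono (μ := noise d T) hSU
  rw [probReal_compl_eq_one_sub hUm, hU] at h1
  have h2 : (#B : ℝ) * ((b : ℝ) ^ #{i ∈ range M | i ∈ T})⁻¹ ≤ ε := by linarith
  rwa [← div_eq_mul_inv, div_le_iff₀ (by positivity)] at h2

lemma sqrt_lip {s t : ℝ} (hs : 1 ≤ s) (ht : 1 ≤ t) : |Real.sqrt s - Real.sqrt t| ≤ |s - t| := by
  have h1 : 1 ≤ Real.sqrt s := Real.one_le_sqrt.2 hs
  have h2 : 1 ≤ Real.sqrt t := Real.one_le_sqrt.2 ht
  have e1 : s - t = (Real.sqrt s - Real.sqrt t) * (Real.sqrt s + Real.sqrt t) := by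
    have h3 := Real.mul_self_sqrt (by linarith : 0 ≤ s)
    have h4 := Real.mul_self_sqrt (by linarith : 0 ≤ t)
    nlinarith
  rw [e1, abs_mul, abs_of_pos (by linarith : 0 < Real.sqrt s + Real.sqrt t)]
  nlinarith [abs_nonneg (Real.sqrt s - Real.sqrt t)]

/-- nearby numbers have nearly the same Weyl sums -/
lemma weyl_near (b : ℕ) (hb : 2 ≤ b) (h : ℕ) (ξ ξ' : ℝ) (M N : ℕ) (hNM : N ≤ M)
    (hξ : |ξ' - ξ| ≤ ((b : ℝ) ^ M)⁻¹) :
    ‖∑ j ∈ range N, ee (h * (ξ' * (b : ℝ) ^ j))‖ ≤ ‖∑ j ∈ range N, ee (h * (ξ * (b : ℝ) ^ j))‖ + 7 * h := by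
  have hb0 : (0 : ℝ) < b := by exact_mod_cast (by omega : 0 < b)
  have hb1 : (1 : ℝ) ≤ b := by exact_mod_cast (by omega : 1 ≤ b)
  have h1 : ‖(∑ j ∈ range N, ee (h * (ξ' * (b : ℝ) ^ j))) - ∑ j ∈ range N, ee (h * (ξ * (b : ℝ) ^ j))‖ ≤
      7 * h := by
    rw [← Finset.sum_sub_distrib]
    refine (norm_sum_le _ _).trans ?_
    calc ∑ j ∈ range N, ‖ee (h * (ξ' * (b : ℝ) ^ j)) - ee (h * (ξ * (b : ℝ) ^ j))‖
        ≤ ∑ j ∈ range N, 7 * (h * (((b : ℝ) ^ M)⁻¹ * (b : ℝ) ^ j)) := by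
          refine Finset.sum_le_sum fun j _ => (ee_lip _ _).trans ?_
          have e1 : (h : ℝ) * (ξ' * (b : ℝ) ^ j) - h * (ξ * (b : ℝ) ^ j) = h * ((ξ' - ξ) * (b : ℝ) ^ j) := by ring
          rw [e1, abs_mul, abs_mul, abs_of_nonneg (by positivity : (0 : ℝ) ≤ h),
            abs_of_pos (by positivity : (0 : ℝ) < (b : ℝ) ^ j)]
          gcongr
      _ = 7 * h * ((b : ℝ) ^ M)⁻¹ * ∑ j ∈ range N, (b : ℝ) ^ j := by
          rw [Finset.mul_sum]
          refine Finset.sum_congr rfl fun j _ => by ring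
      _ ≤ 7 * h * ((b : ℝ) ^ M)⁻¹ * (b : ℝ) ^ M := by
          gcongr
          exact (Pool.Agent.H493R3.geom_le b hb N).trans (pow_le_pow_right₀ hb1 hNM)
      _ = 7 * h := by
          rw [mul_assoc, inv_mul_cancel₀ (by positivity), mul_one]
  have h2 := norm_sub_norm_le (∑ j ∈ range N, ee (h * (ξ' * (b : ℝ) ^ j)))
    (∑ j ∈ range N, ee (h * (ξ * (b : ℝ) ^ j)))
  linarith

open Classical in
/-- **Square roots of rationals with a sparse set of free digits.** -/
theorem finite_sqrt (hb : 2 ≤ b) (d : ℕ → Fin b) (T : Set ℕ) (c : ℝ) (hc : c < 1 / 2)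
    (hT : Recurs b c T) (x : ℝ) (hx : 1 ≤ x) (k : ℕ) (ε : ℝ) (hε : 0 < ε) :
    ∃ N₀ : ℕ, ∀ M : ℕ, (#{w ∈ words d T M | ¬ ∀ N, N₀ ≤ N → N ≤ M → ∀ v : Fin k → Fin b,
      |(#{j ∈ range N | ∀ i : Fin k, ⌊Real.sqrt (x + val w) * (b : ℝ) ^ (j + 1 + (i : ℕ))⌋ % (b : ℤ) =
        (((v i : ℕ)) : ℤ)} : ℝ) - N / (b : ℝ) ^ k| ≤ ε * N} : ℝ) ≤
      ε * (b : ℝ) ^ #{i ∈ range M | i ∈ T} := by
  have hprob := noise_prob hb d T
  obtain ⟨H, δ, hδ, hH⟩ := finite_words b hb k ε hε
  obtain ⟨E, hE⟩ : ∃ E : ℕ → Set (ℕ → Fin b), E = fun C : ℕ => {ω : ℕ → Fin b | ∀ h : ℕ, 1 ≤ h → h ≤ H → ∀ N : ℕ,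
      ‖∑ j ∈ range N, ee (h * (Real.sqrt (x + Real.ofDigits ω) * (b : ℝ) ^ j))‖ ≤ C * bd N} := ⟨_, rfl⟩
  have hEm : Monotone E := by
    intro C C' hCC ω hω
    rw [hE] at hω ⊢
    intro h h1 h2 N
    refine (hω h h1 h2 N).trans ?_
    have : (C : ℝ) ≤ C' := by exact_mod_cast hCC
    exact mul_le_mul_of_nonneg_right this (bd_nonneg N)
  have hae : ∀ᵐ ω ∂(noise d T), ω ∈ ⋃ C, E C := by
    filter_upwards [cancels_affine hb d T c hc hT x 1 one_ne_zero Real.sqrt Real.continuous_sqrt.measurable]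
      with ω hω
    rw [one_mul] at hω
    have h0 := Real.ofDigits_nonneg ω
    have hcan := hω (curved_sqrt (by linarith))
    have h1 : ∀ h : ℕ, ∃ C : ℕ, 1 ≤ h → ∀ N : ℕ,
        ‖∑ j ∈ range N, ee (h * (Real.sqrt (x + Real.ofDigits ω) * (b : ℝ) ^ j))‖ ≤ C * bd N := by
      intro h
      by_cases hh : 1 ≤ h
      · obtain ⟨C, hC⟩ := hcan b hb h (by exact_mod_cast (by omega : h ≠ 0))
        obtain ⟨C', hC'⟩ := exists_nat_ge C
        refine ⟨C', fun _ N => ?_⟩
        have h2 := hC N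
        have e1 : ∑ j ∈ range N, ee (h * (Real.sqrt (x + Real.ofDigits ω) * (b : ℝ) ^ j)) =
            ∑ j ∈ range N, Complex.exp (2 * Real.pi * Complex.I *
              ((((h : ℤ) : ℝ) * ((b : ℝ) ^ j * Real.sqrt (x + Real.ofDigits ω)) : ℝ) : ℂ)) := by
          refine Finset.sum_congr rfl fun j _ => ?_
          rw [ee_eq, Int.cast_natCast, mul_comm (Real.sqrt _)]
        rw [e1]
        refine h2.trans ?_
        exact mul_le_mul_of_nonneg_right hC' (bd_nonneg N)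
      · exact ⟨0, fun h => absurd h hh⟩
    choose C hC using h1
    rw [Set.mem_iUnion]
    refine ⟨(range (H + 1)).sup C, ?_⟩
    rw [hE]
    intro h h1 h2 N
    refine (hC h h1 N).trans ?_
    have : (C h : ℝ) ≤ (range (H + 1)).sup C := by
      exact_mod_cast Finset.le_sup (f := C) (Finset.mem_range.2 (by omega))
    exact mul_le_mul_of_nonneg_right this (bd_nonneg N)
  have hlim := tendsto_measure_iUnion_atTop (μ := noise d T) hEm
  have hone : noise d T (⋃ C, E C) = 1 := by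
    rw [← prob_compl_eq_zero_iff₀]
    · exact hae
    · exact (measure_eq_zero_iff_ae_notMem.2 (by simpa using hae) : noise d T (⋃ C, E C)ᶜ = 0) |> fun h =>
        (NullMeasurableSet.of_null h).of_compl
  rw [hone] at hlim
  have hlimR : Tendsto (fun C => (noise d T).real (E C)) atTop (𝓝 1) := by
    have h1 := (ENNReal.tendsto_toReal ENNReal.one_ne_top).comp hlim
    rw [ENNReal.toReal_one] at h1
    exact h1
  obtain ⟨C, hC⟩ := (hlimR.eventually (lt_mem_nhds (show 1 - ε < 1 by linarith))).exists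
  -- the length
  have hsm : Tendsto (fun N : ℕ => C * (bd N / N) + 7 * H / N) atTop (𝓝 (C * 0 + 0)) :=
    (bd_small.const_mul (C : ℝ)).add (tendsto_const_div_atTop_nhds_zero_nat _)
  rw [mul_zero, add_zero] at hsm
  obtain ⟨N1, hN1⟩ := eventually_atTop.1 (hsm.eventually (gt_mem_nhds hδ))
  refine ⟨max N1 1, fun M => ?_⟩
  refine few_bad hb d T M (fun w => ∀ N, max N1 1 ≤ N → N ≤ M → ∀ v : Fin k → Fin b,
      |(#{j ∈ range N | ∀ i : Fin k, ⌊Real.sqrt (x + val w) * (b : ℝ) ^ (j + 1 + (i : ℕ))⌋ % (b : ℤ) =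
        (((v i : ℕ)) : ℤ)} : ℝ) - N / (b : ℝ) ^ k| ≤ ε * N) (E C) ?_ ε hC.le
  intro ω hω N hN hNM v
  have hN0 : 0 < N := by omega
  have hNR : (0 : ℝ) < N := by exact_mod_cast hN0
  refine hH _ N hN0 (fun h h1 h2 => ?_) v
  have hmem : extw (fun i : Fin M => ω i) ∈ cyl M ω := by
    intro i hi
    unfold extw
    rw [dif_pos hi]
  have h0 := Real.ofDigits_nonneg ω
  have h0' := Real.ofDigits_nonneg (extw fun i : Fin M => ω i)
  have hnear : |Real.sqrt (x + val fun i : Fin M => ω i) - Real.sqrt (x + Real.ofDigits ω)| ≤ ((b : ℝ) ^ M)⁻¹ := by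
    rw [val_eq]
    refine (sqrt_lip (by linarith) (by linarith)).trans ?_
    rw [add_sub_add_left_eq_sub]
    exact cyl_near ω hmem
  refine (weyl_near b hb h _ _ M N hNM hnear).trans ?_
  have h3 : ‖∑ j ∈ range N, ee (h * (Real.sqrt (x + Real.ofDigits ω) * (b : ℝ) ^ j))‖ ≤ C * bd N := by
    rw [hE] at hω
    exact hω h h1 h2 N
  have h4 : (C : ℝ) * (bd N / N) + 7 * H / N < δ := hN1 N (by omega)
  have h5 : (C : ℝ) * bd N + 7 * H < δ * N := by
    have h6 : (C : ℝ) * (bd N / N) + 7 * H / N = (C * bd N + 7 * H) / N := by ring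
    rw [h6, div_lt_iff₀ hNR] at h4
    exact h4
  have h7 : (h : ℝ) ≤ H := by exact_mod_cast h2
  linarith

end Q83.NQ
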