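import Pool.Agent.Q83.NQ.C

/-!
# Analytic functions of a number with noisy digits
-/

set_option autoImplicit false
set_option linter.unusedSectionVars false

open MeasureTheory Filter Topology Finset
open scoped ENNReal
open Pool.Agent.H493R3 (ee ee_norm ee_add ee_neg ee_int ee_lip)
open Q83.NP

namespace Q83.NQ

variable {b : ℕ} [NeZero b]

/-- **No atoms.** -/
theorem ne_ae (hb : 2 ≤ b) (d : ℕ → Fin b) (T : Set ℕ) (c : ℝ) (hc : c < 1 / 2)
    (hT : Recurs b c T) (u0 : ℝ) : ∀ᵐ ω ∂(noise d T), Real.ofDigits ω ≠ u0 := by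
  have hcur : Curved (fun v : ℝ => (v - u0) ^ 2) u0 := by
    have hcd : ContDiff ℝ 2 fun v : ℝ => (v - u0) ^ 2 := by fun_prop
    refine ⟨hcd.contDiffAt, ?_⟩
    have h1 : deriv (fun v : ℝ => (v - u0) ^ 2) = fun v => 2 * (v - u0) := by
      funext v
      have h1 : HasDerivAt (fun v : ℝ => (v - u0) ^ 2) ((2 : ℕ) * (v - u0) ^ (2 - 1) * 1) v :=
        ((hasDerivAt_id v).sub_const u0).pow 2
      rw [h1.deriv]
      simp
    rw [h1]
    have h2 : HasDerivAt (fun v : ℝ => 2 * (v - u0)) (2 * 1) u0 := ((hasDerivAt_id u0).sub_const u0).const_mul 2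
    rw [h2.deriv]
    norm_num
  filter_upwards [curved_cancel hb d T c hc hT (fun v : ℝ => (v - u0) ^ 2) (by fun_prop) 2
    (fun j => (2 : ℝ) ^ j) (lac_pow 2 le_rfl) 1 one_ne_zero] with ω hω hu
  rw [hu] at hω
  obtain ⟨C, hC⟩ := hω hcur
  have h1 : ∀ N : ℕ, (N : ℝ) ≤ C * bd N := by
    intro N
    have h2 := hC N
    have e1 : ∑ j ∈ range N, ee (1 * 2 ^ j * (u0 - u0) ^ 2) = (N : ℂ) := by
      have e2 : ∀ j : ℕ, ee (1 * 2 ^ j * (u0 - u0) ^ 2) = 1 := by
        intro j
        have : (1 : ℝ) * 2 ^ j * (u0 - u0) ^ 2 = ((0 : ℤ) : ℝ) := by simp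
        rw [this, ee_int]
      simp_rw [e2]
      simp
    rw [e1, Complex.norm_natCast] at h2
    exact h2
  have h2 : Tendsto (fun N : ℕ => C * (bd N / N)) atTop (𝓝 (C * 0)) := bd_small.const_mul C
  rw [mul_zero] at h2
  obtain ⟨N0, hN0⟩ := eventually_atTop.1 (h2.eventually (gt_mem_nhds (show (0 : ℝ) < 1 / 2 by norm_num)))
  have h3 := hN0 (N0 + 1) (by omega)
  have h4 := h1 (N0 + 1)
  have hpos : (0 : ℝ) < ((N0 + 1 : ℕ) : ℝ) := by positivity
  have h5 : C * (bd (N0 + 1) / ((N0 + 1 : ℕ) : ℝ)) = C * bd (N0 + 1) / ((N0 + 1 : ℕ) : ℝ) := by ring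
  rw [h5, div_lt_iff₀ hpos] at h3
  linarith

theorem ne_affine (hb : 2 ≤ b) (d : ℕ → Fin b) (T : Set ℕ) (c : ℝ) (hc : c < 1 / 2)
    (hT : Recurs b c T) (x r : ℝ) (hr : r ≠ 0) (u0 : ℝ) :
    ∀ᵐ ω ∂(noise d T), x + r * Real.ofDigits ω ≠ u0 := by
  filter_upwards [ne_ae hb d T c hc hT ((u0 - x) / r)] with ω hω h
  apply hω
  rw [← h]
  field_simp
  ring

theorem notMem_countable (hb : 2 ≤ b) (d : ℕ → Fin b) (T : Set ℕ) (c : ℝ) (hc : c < 1 / 2)
    (hT : Recurs b c T) (x r : ℝ) (hr : r ≠ 0) (S : Set ℝ) (hS : S.Countable) :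
    ∀ᵐ ω ∂(noise d T), x + r * Real.ofDigits ω ∉ S := by
  have h1 : ∀ᵐ ω ∂(noise d T), ∀ u ∈ S, x + r * Real.ofDigits ω ≠ u := by
    rw [ae_ball_iff hS]
    intro u _
    exact ne_affine hb d T c hc hT x r hr u
  filter_upwards [h1] with ω hω h
  exact hω _ h rfl

/-- an analytic function on an interval is affine or curved off a countable set -/
lemma curved_or_affine (F : ℝ → ℝ) (s t : ℝ) (hF : AnalyticOnNhd ℝ F (Set.Ioo s t)) :
    (∀ u ∈ Set.Ioo s t, deriv (deriv F) u = 0) ∨ {u ∈ Set.Ioo s t | ¬ Curved F u}.Countable := by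
  have hG : AnalyticOnNhd ℝ (deriv (deriv F)) (Set.Ioo s t) := hF.deriv.deriv
  by_cases h : ∃ u ∈ Set.Ioo s t, deriv (deriv F) =ᶠ[𝓝 u] 0
  · obtain ⟨u, hu, hu'⟩ := h
    left
    have := hG.eqOn_zero_of_preconnected_of_eventuallyEq_zero isPreconnected_Ioo hu hu'
    intro v hv
    exact this hv
  · right
    push Not at h
    refine IsLindelof.countable (HereditarilyLindelofSpace.isLindelof _) ?_
    rw [discreteTopology_subtype_iff]
    intro u hu
    obtain ⟨hu1, hu2⟩ := hu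
    rcases (hG u hu1).eventually_eq_zero_or_eventually_ne_zero with h1 | h1
    · exact absurd h1 (h u hu1)
    · have h2 : ∀ᶠ v in 𝓝[≠] u, v ∉ {u ∈ Set.Ioo s t | ¬ Curved F u} := by
        filter_upwards [h1] with v hv hv'
        exact hv'.2 ⟨(hF v hv'.1).contDiffAt, hv⟩
      rw [← Filter.empty_mem_iff_bot]
      have h3 := Filter.inter_mem_inf h2 (Filter.mem_principal_self {u ∈ Set.Ioo s t | ¬ Curved F u})
      refine Filter.mem_of_superset h3 ?_
      rintro v ⟨hv1, hv2⟩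
      exact hv1 hv2

/-- **One analytic function.** -/
theorem analytic_ae (hb : 2 ≤ b) (d : ℕ → Fin b) (T : Set ℕ) (c : ℝ) (hc : c < 1 / 2)
    (hT : Recurs b c T) (x r : ℝ) (hr : r ≠ 0) (F : ℝ → ℝ) (s t : ℝ)
    (hF : AnalyticOnNhd ℝ F (Set.Ioo s t)) :
    ∀ᵐ ω ∂(noise d T), x + r * Real.ofDigits ω ∈ Set.Ioo s t →
      Cancels (F (x + r * Real.ofDigits ω)) ∨ ∀ u ∈ Set.Ioo s t, deriv (deriv F) u = 0 := by
  classical
  rcases curved_or_affine F s t hF with h | h
  · exact Eventually.of_forall fun ω _ => Or.inr h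
  · -- a measurable extension
    obtain ⟨G, hG⟩ : ∃ G : ℝ → ℝ, G = (Set.Ioo s t).indicator F := ⟨_, rfl⟩
    have hGm : Measurable G := by
      rw [hG]
      have hc : ContinuousOn F (Set.Ioo s t) := hF.continuousOn
      rw [← Set.piecewise_eq_indicator]
      exact hc.measurable_piecewise continuous_zero.continuousOn measurableSet_Ioo
    have hGF : ∀ u ∈ Set.Ioo s t, Curved F u → Curved G u := by
      intro u hu hcur
      have he : G =ᶠ[𝓝 u] F := by
        filter_upwards [isOpen_Ioo.mem_nhds hu] with v hv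
        rw [hG, Set.indicator_of_mem hv]
      refine ⟨hcur.1.congr_of_eventuallyEq he, ?_⟩
      have h2 : deriv (deriv G) u = deriv (deriv F) u := (he.deriv).deriv_eq
      rw [h2]
      exact hcur.2
    filter_upwards [cancels_affine hb d T c hc hT x r hr G hGm,
      notMem_countable hb d T c hc hT x r hr _ h] with ω h1 h2 h3
    left
    have h4 : Curved F (x + r * Real.ofDigits ω) := by
      by_contra hcon
      exact h2 ⟨h3, hcon⟩
    have h5 := h1 (hGF _ h3 h4)
    rw [hG, Set.indicator_of_mem h3] at h5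
    exact h5

/-- a function with vanishing second derivative on an interval is affine -/
lemma affine_of_deriv (F : ℝ → ℝ) (s t : ℝ) (hF : AnalyticOnNhd ℝ F (Set.Ioo s t))
    (h : ∀ u ∈ Set.Ioo s t, deriv (deriv F) u = 0) {u v : ℝ} (hu : u ∈ Set.Ioo s t)
    (hv : v ∈ Set.Ioo s t) : F v = F u + deriv F u * (v - u) := by
  have h1 : ∀ w ∈ Set.Ioo s t, deriv F w = deriv F u := fun w hw =>
    isOpen_Ioo.is_const_of_deriv_eq_zero isPreconnected_Ioo hF.deriv.differentiableOn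
      (fun z hz => h z hz) hw hu
  have h2 : ∀ w ∈ Set.Ioo s t, HasDerivAt (fun w => F w - deriv F u * w) 0 w := by
    intro w hw
    have h3 : HasDerivAt (fun w => F w - deriv F u * w) (deriv F w - deriv F u * 1) w :=
      ((hF w hw).differentiableAt.hasDerivAt).sub ((hasDerivAt_id w).const_mul (deriv F u))
    rw [h1 w hw, mul_one, sub_self] at h3
    exact h3
  have h3 : F v - deriv F u * v = F u - deriv F u * u :=
    isOpen_Ioo.is_const_of_deriv_eq_zero (f := fun w => F w - deriv F u * w) isPreconnected_Ioo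
      (fun w hw => (h2 w hw).differentiableAt.differentiableWithinAt)
      (fun w hw => (h2 w hw).deriv) hv hu
  linarith

end Q83.NQ
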