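import Mathlib

/-!
# Branches of algebraic functions over a subfield of the real numbers
-/

set_option autoImplicit false

open Filter Topology Polynomial
open scoped ContDiff

namespace Q83.NQ

lemma countable_poly (R : Type) [CommRing R] [Countable R] : Countable R[X] := by
  rw [← Cardinal.mk_le_aleph0_iff]
  refine Polynomial.cardinalMk_le_max.trans ?_
  exact max_le (Cardinal.mk_le_aleph0_iff.2 inferInstance) le_rfl

variable {k : Subfield ℝ}

/-- the value of a polynomial in two variables -/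
noncomputable def ev (Q : k[X][X]) (u v : ℝ) : ℝ := eval₂ (aeval u : k[X] →ₐ[k] ℝ).toRingHom v Q

lemma ev_sum (Q : k[X][X]) (u v : ℝ) :
    ev Q u v = ∑ i ∈ Finset.range (Q.natDegree + 1), aeval u (Q.coeff i) * v ^ i := by
  unfold ev
  rw [eval₂_eq_sum_range]
  rfl

lemma ev_contDiff (Q : k[X][X]) : ContDiff ℝ ω fun p : ℝ × ℝ => ev Q p.1 p.2 := by
  have h1 : (fun p : ℝ × ℝ => ev Q p.1 p.2) = fun p : ℝ × ℝ =>
      ∑ i ∈ Finset.range (Q.natDegree + 1), aeval p.1 (Q.coeff i) * p.2 ^ i := by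
    funext p
    exact ev_sum Q p.1 p.2
  rw [h1]
  refine ContDiff.sum fun i _ => ?_
  exact ((contDiff_aeval (Q.coeff i) ω).comp contDiff_fst).mul (contDiff_snd.pow i)

lemma ev_map (Q : k[X][X]) (u v : ℝ) :
    ev Q u v = eval v (Q.map (aeval u : k[X] →ₐ[k] ℝ).toRingHom) := by
  unfold ev
  rw [eval_map]

lemma ev_deriv (Q : k[X][X]) (u v : ℝ) : HasDerivAt (fun v => ev Q u v) (ev (derivative Q) u v) v := by
  have h1 := (Q.map (aeval u : k[X] →ₐ[k] ℝ).toRingHom).hasDerivAt v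
  rw [derivative_map] at h1
  have h2 : (fun v => ev Q u v) = fun v => eval v (Q.map (aeval u : k[X] →ₐ[k] ℝ).toRingHom) := by
    funext v; exact ev_map Q u v
  rw [h2, ev_map]
  exact h1

/-- a relation with nonvanishing derivative -/
lemma exists_min {β y : ℝ} (hβ : Transcendental k β) (h : ∃ Q : k[X][X], Q ≠ 0 ∧ ev Q β y = 0) :
    ∃ Q : k[X][X], Q ≠ 0 ∧ ev Q β y = 0 ∧ ev (derivative Q) β y ≠ 0 := by
  classical
  have hex : ∃ n : ℕ, ∃ Q : k[X][X], Q.natDegree = n ∧ Q ≠ 0 ∧ ev Q β y = 0 := by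
    obtain ⟨Q, h1, h2⟩ := h
    exact ⟨_, Q, rfl, h1, h2⟩
  obtain ⟨Q, hQ1, hQ2, hQ3⟩ := Nat.find_spec hex
  refine ⟨Q, hQ2, hQ3, fun hcon => ?_⟩
  have hdeg : Q.natDegree ≠ 0 := by
    intro h0
    obtain ⟨q, hq⟩ : ∃ q : k[X], Q = C q := ⟨Q.coeff 0, eq_C_of_natDegree_eq_zero h0⟩
    rw [hq] at hQ3
    unfold ev at hQ3
    rw [eval₂_C] at hQ3
    have h1 : q = 0 := by
      by_contra hq0
      exact hβ ⟨q, hq0, hQ3⟩
    rw [hq, h1, C_0] at hQ2
    exact hQ2 rfl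
  have hlt := natDegree_derivative_lt hdeg
  rw [hQ1] at hlt
  have hne : derivative Q ≠ 0 := by
    intro h0
    exact hdeg (derivative_eq_zero.1 h0)
  exact Nat.find_min hex hlt ⟨derivative Q, rfl, hne, hcon⟩

/-- **The branch through a point.** -/
lemma exists_branch (Q : k[X][X]) (β y : ℝ) (h0 : ev Q β y = 0) (h1 : ev (derivative Q) β y ≠ 0) :
    ∃ F : ℝ → ℝ, AnalyticAt ℝ F β ∧ F β = y ∧ (∀ᶠ u in 𝓝 β, ev Q u (F u) = 0) ∧
      ∀ᶠ p : ℝ × ℝ in 𝓝 (β, y), ev Q p.1 p.2 = 0 → p.2 = F p.1 := by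
  obtain ⟨f, hf⟩ : ∃ f : ℝ × ℝ → ℝ, f = fun p => ev Q p.1 p.2 := ⟨_, rfl⟩
  have hcd : ContDiffAt ℝ ω f (β, y) := by rw [hf]; exact (ev_contDiff Q).contDiffAt
  have hfd : HasFDerivAt f (fderiv ℝ f (β, y)) (β, y) := (hcd.differentiableAt (by simp)).hasFDerivAt
  have hcurve : HasDerivAt (fun v : ℝ => (β, v)) ((0 : ℝ), (1 : ℝ)) y :=
    (hasDerivAt_const y β).prodMk (hasDerivAt_id y)
  have hd : fderiv ℝ f (β, y) ((0 : ℝ), (1 : ℝ)) = ev (derivative Q) β y := by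
    have h2 : HasDerivAt (f ∘ fun v : ℝ => (β, v)) (fderiv ℝ f (β, y) ((0 : ℝ), (1 : ℝ))) y :=
      HasFDerivAt.comp_hasDerivAt y hfd hcurve
    have h3 : (f ∘ fun v : ℝ => (β, v)) = fun v => ev Q β v := by
      rw [hf]; rfl
    rw [h3] at h2
    exact h2.unique (ev_deriv Q β y)
  have hinv : (fderiv ℝ f (β, y) ∘L .inr ℝ ℝ ℝ).IsInvertible := by
    refine ⟨ContinuousLinearEquiv.unitsEquivAut ℝ (Units.mk0 _ h1), ?_⟩
    ext
    simp [hd]
  have hne : (ω : WithTop ℕ∞) ≠ 0 := by simp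
  refine ⟨hcd.implicitFunction hne hinv, ?_, hcd.implicitFunction_apply_self hne hinv, ?_, ?_⟩
  · exact (hcd.contDiffAt_implicitFunction hne hinv).analyticAt
  · filter_upwards [hcd.eventually_apply_implicitFunction hne hinv] with u hu
    have h2 : f (β, y) = 0 := by rw [hf]; exact h0
    rw [h2] at hu
    have h3 : ev Q u (hcd.implicitFunction hne hinv u) = f (u, hcd.implicitFunction hne hinv u) :=
      (congrFun hf (u, hcd.implicitFunction hne hinv u)).symm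
    rw [h3]; exact hu
  · filter_upwards [hcd.eventually_apply_eq_iff_implicitFunction hne hinv] with p hp h2
    have h3 : f (β, y) = 0 := by rw [hf]; exact h0
    have h4 : f p = 0 := by
      have : f p = ev Q p.1 p.2 := congrFun hf p
      rw [this]; exact h2
    exact (hp.1 (h4.trans h3.symm)).symm

end Q83.NQ
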