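import Pool.Agent.Q83.NQ.G
import Pool.Agent.Q83.NQ.F

/-!
# Numbers algebraic over the field generated by a number with noisy digits
-/

set_option autoImplicit false
set_option linter.unusedSectionVars false

open MeasureTheory Filter Topology Polynomial
open Q83.NP

namespace Q83.NQ

variable {k : Subfield ℝ}

open IntermediateField.algebraAdjoinAdjoin in
lemma exists_rel {β y : ℝ} (h : IsAlgebraic (IntermediateField.adjoin k {β}) y) :
    ∃ Q : k[X][X], Q ≠ 0 ∧ ev Q β y = 0 := by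
  have h1 : IsAlgebraic (Algebra.adjoin k {β}) y :=
    (IsFractionRing.isAlgebraic_iff (Algebra.adjoin k {β}) (IntermediateField.adjoin k {β}) ℝ).2 h
  obtain ⟨p, hp, hp0⟩ := h1
  obtain ⟨ψ, hψd⟩ : ∃ ψ : k[X] →ₐ[k] Algebra.adjoin k {β},
    ψ = aeval ⟨β, Algebra.self_mem_adjoin_singleton k β⟩ := ⟨_, rfl⟩
  have hval : ∀ q : k[X], ((ψ q : Algebra.adjoin k {β}) : ℝ) = aeval β q := by
    intro q
    have h2 := Polynomial.aeval_algHom_apply (Algebra.adjoin k {β}).val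
      (⟨β, Algebra.self_mem_adjoin_singleton k β⟩ : Algebra.adjoin k {β}) q
    rw [hψd]
    exact h2.symm
  have hψ : Function.Surjective ψ := by
    rintro ⟨z, hz⟩
    have hz' : z ∈ (aeval β : k[X] →ₐ[k] ℝ).range := by
      rw [← Algebra.adjoin_singleton_eq_range_aeval]; exact hz
    obtain ⟨q, hq⟩ := hz'
    refine ⟨q, Subtype.ext ?_⟩
    rw [hval]
    exact hq
  obtain ⟨Q, hQ⟩ := map_surjective ψ.toRingHom hψ p
  refine ⟨Q, ?_, ?_⟩
  · rintro rfl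
    rw [Polynomial.map_zero] at hQ
    exact hp hQ.symm
  · unfold ev
    have h2 : (aeval β : k[X] →ₐ[k] ℝ).toRingHom =
        (algebraMap (Algebra.adjoin k {β}) ℝ).comp ψ.toRingHom := by
      refine RingHom.ext fun q => ?_
      exact (hval q).symm
    rw [h2, ← eval₂_map, hQ]
    exact hp0

/-- a branch of the algebraic function `Q (u, v) = 0` in the box `(s', t') × (s, t)` -/
structure Branch (Q : k[X][X]) (s t s' t' : ℚ) (F : ℝ → ℝ) : Prop where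
  an : AnalyticOnNhd ℝ F (Set.Ioo (s' : ℝ) t')
  zero : ∀ u ∈ Set.Ioo (s' : ℝ) t', ev Q u (F u) = 0
  uniq : ∀ u ∈ Set.Ioo (s' : ℝ) t', ∀ v ∈ Set.Ioo (s : ℝ) t, ev Q u v = 0 → v = F u

lemma exists_box (Q : k[X][X]) (β y : ℝ) (h0 : ev Q β y = 0) (h1 : ev (derivative Q) β y ≠ 0) :
    ∃ s t s' t' : ℚ, β ∈ Set.Ioo (s' : ℝ) t' ∧ y ∈ Set.Ioo (s : ℝ) t ∧ ∃ F, Branch Q s t s' t' F := by
  obtain ⟨F, hF1, _, hF3, hF4⟩ := exists_branch Q β y h0 h1
  have hF5 := hF1.eventually_analyticAt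
  obtain ⟨ε1, hε1, hA⟩ := Metric.eventually_nhds_iff.1 (hF5.and hF3)
  obtain ⟨ε2, hε2, hB⟩ := Metric.eventually_nhds_iff.1 hF4
  obtain ⟨ε, hε⟩ : ∃ ε, ε = min ε1 ε2 := ⟨_, rfl⟩
  have hε0 : 0 < ε := by rw [hε]; exact lt_min hε1 hε2
  obtain ⟨s', hs1, hs2⟩ := exists_rat_btwn (show β - ε < β by linarith)
  obtain ⟨t', ht1, ht2⟩ := exists_rat_btwn (show β < β + ε by linarith)
  obtain ⟨s, hs3, hs4⟩ := exists_rat_btwn (show y - ε < y by linarith)
  obtain ⟨t, ht3, ht4⟩ := exists_rat_btwn (show y < y + ε by linarith)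
  have hd : ∀ u ∈ Set.Ioo (s' : ℝ) t', |u - β| < ε := by
    intro u hu
    rw [abs_lt]
    constructor <;> linarith [hu.1, hu.2]
  have hd2 : ∀ v ∈ Set.Ioo (s : ℝ) t, |v - y| < ε := by
    intro u hu
    rw [abs_lt]
    constructor <;> linarith [hu.1, hu.2]
  refine ⟨s, t, s', t', ⟨hs2, ht1⟩, ⟨hs4, ht3⟩, F, ?_, ?_, ?_⟩
  · intro u hu
    refine (hA ?_).1
    rw [Real.dist_eq]
    exact (hd u hu).trans_le (by rw [hε]; exact min_le_left _ _)
  · intro u hu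
    refine (hA ?_).2
    rw [Real.dist_eq]
    exact (hd u hu).trans_le (by rw [hε]; exact min_le_left _ _)
  · intro u hu v hv huv
    refine hB (y := (u, v)) ?_ huv
    rw [Prod.dist_eq, Real.dist_eq, Real.dist_eq]
    exact (max_lt (hd u hu) (hd2 v hv)).trans_le (by rw [hε]; exact min_le_right _ _)

/-- values at rational points are algebraic -/
lemma alg_at_rat (Q : k[X][X]) (r : ℚ) (v : ℝ) (hr : aeval (r : ℝ) Q.leadingCoeff ≠ 0)
    (h : ev Q r v = 0) : IsAlgebraic k v := by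
  obtain ⟨g, hg⟩ : ∃ g : k[X] →+* k, g = evalRingHom (r : k) := ⟨_, rfl⟩
  have hcomp : (aeval (r : ℝ) : k[X] →ₐ[k] ℝ).toRingHom = (algebraMap k ℝ).comp g := by
    refine RingHom.ext fun q => ?_
    have h1 : (r : ℝ) = algebraMap k ℝ (r : k) := (map_ratCast (algebraMap k ℝ) r).symm
    have h2 : (aeval (r : ℝ) : k[X] →ₐ[k] ℝ) q = algebraMap k ℝ (eval (r : k) q) := by
      rw [h1, aeval_algebraMap_apply]
      rfl
    rw [hg]
    exact h2
  refine ⟨Q.map g, ?_, ?_⟩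
  · intro h0
    have h1 : (Q.map g).coeff Q.natDegree = 0 := by rw [h0, coeff_zero]
    rw [coeff_map, coeff_natDegree] at h1
    apply hr
    have h2 : (aeval (r : ℝ) : k[X] →ₐ[k] ℝ) Q.leadingCoeff = algebraMap k ℝ (g Q.leadingCoeff) :=
      RingHom.congr_fun hcomp Q.leadingCoeff
    rw [h2, h1, map_zero]
  · unfold ev at h
    rw [hcomp, ← eval₂_map] at h
    exact h

/-- an affine branch has algebraic coefficients -/
lemma affine_alg (Q : k[X][X]) (hQ : Q ≠ 0) (s t s' t' : ℚ) (F : ℝ → ℝ) (hF : Branch Q s t s' t' F)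
    (hdd : ∀ u ∈ Set.Ioo (s' : ℝ) t', deriv (deriv F) u = 0) {β : ℝ} (hβ : β ∈ Set.Ioo (s' : ℝ) t') :
    ∃ p q : ℝ, IsAlgebraic k p ∧ IsAlgebraic k q ∧ F β = p + q * β := by
  have hst : s' < t' := by exact_mod_cast hβ.1.trans hβ.2
  have hlc : Q.leadingCoeff ≠ 0 := leadingCoeff_ne_zero.2 hQ
  -- finitely many bad rationals
  have hfin : {r : ℚ | aeval (r : ℝ) Q.leadingCoeff = 0}.Finite := by
    have h1 : {x : ℝ | aeval x Q.leadingCoeff = 0}.Finite := by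
      have h2 := (Q.leadingCoeff.rootSet_finite ℝ)
      refine h2.subset fun x hx => ?_
      rw [mem_rootSet]
      exact ⟨hlc, hx⟩
    exact h1.preimage (Rat.cast_injective.injOn)
  have hinf : (Set.Ioo s' t' \ {r : ℚ | aeval (r : ℝ) Q.leadingCoeff = 0}).Infinite :=
    (Set.Ioo_infinite hst).sdiff hfin
  obtain ⟨r1, hr1, r2, hr2, hne⟩ := hinf.nontrivial
  have hin : ∀ r ∈ Set.Ioo s' t', (r : ℝ) ∈ Set.Ioo (s' : ℝ) t' := fun r hr =>
    ⟨by exact_mod_cast hr.1, by exact_mod_cast hr.2⟩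
  have a1 : IsAlgebraic k (F r1) := alg_at_rat Q r1 _ hr1.2 (hF.zero _ (hin r1 hr1.1))
  have a2 : IsAlgebraic k (F r2) := alg_at_rat Q r2 _ hr2.2 (hF.zero _ (hin r2 hr2.1))
  have e1 := affine_of_deriv F s' t' hF.an hdd (hin r1 hr1.1) (hin r2 hr2.1)
  have e2 := affine_of_deriv F s' t' hF.an hdd (hin r1 hr1.1) hβ
  have hne' : (r2 : ℝ) - r1 ≠ 0 := by
    rw [sub_ne_zero]
    exact fun h => hne (by exact_mod_cast h.symm)
  have hratalg : ∀ r : ℚ, IsAlgebraic k (r : ℝ) := fun r => by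
    have h1 : (r : ℝ) = algebraMap k ℝ (r : k) := (map_ratCast (algebraMap k ℝ) r).symm
    rw [h1]
    exact isAlgebraic_algebraMap _
  have hq : deriv F r1 = (F r2 - F r1) * ((r2 : ℝ) - r1)⁻¹ := by
    rw [e1]
    field_simp
    ring
  have aq : IsAlgebraic k (deriv F r1) := by
    rw [hq]
    exact (a2.sub a1).mul ((hratalg r2).sub (hratalg r1)).inv
  refine ⟨F r1 - deriv F r1 * r1, deriv F r1, a1.sub (aq.mul (hratalg r1)), aq, ?_⟩
  rw [e2]; ring

variable {b : ℕ} [NeZero b]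

/-- **Relative normality.** -/
theorem relative_ae (hb : 2 ≤ b) (d : ℕ → Fin b) (T : Set ℕ) (c : ℝ) (hc : c < 1 / 2)
    (hT : Recurs b c T) (x r : ℝ) (hr : r ≠ 0) (k : Subfield ℝ) [Countable k] :
    ∀ᵐ ω ∂(noise d T), Transcendental k (x + r * Real.ofDigits ω) ∧
      ∀ y : ℝ, IsAlgebraic (IntermediateField.adjoin k {x + r * Real.ofDigits ω}) y →
        (∃ p q : ℝ, IsAlgebraic k p ∧ IsAlgebraic k q ∧ y = p + q * (x + r * Real.ofDigits ω)) ∨
        Cancels y := by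
  have hc1 : Countable k[X] := countable_poly k
  have hc2 : Countable k[X][X] := countable_poly k[X]
  have h1 : ∀ᵐ ω ∂(noise d T), ∀ (i : k[X][X] × ℚ × ℚ × ℚ × ℚ)
      (hi : ∃ F, Branch i.1 i.2.1 i.2.2.1 i.2.2.2.1 i.2.2.2.2 F),
      x + r * Real.ofDigits ω ∈ Set.Ioo (i.2.2.2.1 : ℝ) i.2.2.2.2 →
      Cancels (hi.choose (x + r * Real.ofDigits ω)) ∨
        ∀ u ∈ Set.Ioo (i.2.2.2.1 : ℝ) i.2.2.2.2, deriv (deriv hi.choose) u = 0 := by
    rw [ae_all_iff]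
    intro i
    by_cases hi : ∃ F, Branch i.1 i.2.1 i.2.2.1 i.2.2.2.1 i.2.2.2.2 F
    · filter_upwards [analytic_ae hb d T c hc hT x r hr hi.choose _ _ hi.choose_spec.an] with ω hω _ hmem
      exact hω hmem
    · exact Eventually.of_forall fun ω h => absurd h hi
  have h2 : ∀ᵐ ω ∂(noise d T), x + r * Real.ofDigits ω ∉ {z : ℝ | IsAlgebraic k z} :=
    notMem_countable hb d T c hc hT x r hr _ (Algebraic.countable k ℝ)
  filter_upwards [h1, h2] with ω g1 g2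
  obtain ⟨β, hβ⟩ : ∃ β, β = x + r * Real.ofDigits ω := ⟨_, rfl⟩
  rw [← hβ] at g1 g2 ⊢
  have htr : Transcendental k β := g2
  refine ⟨htr, fun y hy => ?_⟩
  obtain ⟨Q, hQ1, hQ2, hQ3⟩ := exists_min htr (exists_rel hy)
  obtain ⟨s, t, s', t', m1, m2, hF⟩ := exists_box Q β y hQ2 hQ3
  have hyF : y = hF.choose β := hF.choose_spec.uniq β m1 y m2 hQ2
  rcases g1 (Q, s, t, s', t') hF m1 with h | h
  · right
    rw [hyF]; exact h
  · left
    obtain ⟨p, q, hp, hq, hpq⟩ := affine_alg Q hQ1 s t s' t' _ hF.choose_spec h m1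
    exact ⟨p, q, hp, hq, hyF.trans hpq⟩

end Q83.NQ
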